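import Mathlib

/-!
# MP_4255df : maximum term / maximum modulus.  Common framework.

`Chain K` is the abstract object everybody works with: the sequence of normalised windows of an
entire function at its transition radii.
-/

open Filter Topology

namespace MaxTerm

/-- `n`-th Taylor coefficient of `f` at the origin. -/
noncomputable def coeff (f : ℂ → ℂ) (n : ℕ) : ℂ := iteratedDeriv n f 0 / (n.factorial : ℂ)

/-- `f` is a transcendental entire function. -/
def TransEntire (f : ℂ → ℂ) : Prop :=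
  Differentiable ℂ f ∧ ¬ ∃ p : Polynomial ℂ, ∀ z, f z = p.eval z

/-- the maximum term `m(r) = max_n |a_n| r^n`. -/
noncomputable def maxTerm (f : ℂ → ℂ) (r : ℝ) : ℝ := ⨆ n : ℕ, ‖coeff f n‖ * r ^ n

/-- the maximum modulus `M(r,f) = max_{|z|=r} |f z|`. -/
noncomputable def maxMod (f : ℂ → ℂ) (r : ℝ) : ℝ :=
  sSup ((fun z : ℂ => ‖f z‖) '' Metric.sphere (0 : ℂ) r)

/-- `β_f = liminf_{r → ∞} m(r) / M(r,f)`. -/
noncomputable def betaOf (f : ℂ → ℂ) : ℝ :=
  liminf (fun r : ℝ => maxTerm f r / maxMod f r) atTop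

/-- the partial theta series `θ_q(z) = ∑_{n ∈ ℤ} q^{n(n-1)/2} z^n`. -/
noncomputable def theta (q z : ℂ) : ℂ := ∑' n : ℤ, q ^ (n * (n - 1) / 2).toNat * z ^ n

/-- `max_{|z| = 1} |θ_q(z)|`. -/
noncomputable def thetaMax (q : ℂ) : ℝ := sSup ((fun z : ℂ => ‖theta q z‖) '' Metric.sphere (0 : ℂ) 1)

/-- `K* = min_{|q| < 1} max_{|z| = 1} |θ_q(z)|` (`= 1.70917...`). -/
noncomputable def Kstar : ℝ := sInf (thetaMax '' Metric.ball (0 : ℂ) 1)

/-- a normalised window with edge length `k`: `c 0 = c k = 1`, all other coefficients are at most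
`1` in modulus, and the function is bounded by `K` on the unit circle. -/
structure IsWindow (K : ℝ) (k : ℕ) (c : ℤ → ℂ) : Prop where
  c_zero : c 0 = 1
  c_edge : c (k : ℤ) = 1
  norm_le : ∀ n, ‖c n‖ ≤ 1
  summable : Summable (fun n : ℤ => ‖c n‖)
  bound : ∀ z : ℂ, ‖z‖ = 1 → ‖∑' n : ℤ, c n * z ^ n‖ ≤ K

/-- The chain of windows of an entire function at consecutive transition radii
`R 0 < R 1 < ...`; `k j` is the gap between the two consecutive vertices at `R j`,
`|τ j| = R (j+1) / R j`. -/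
structure Chain (K : ℝ) where
  k : ℕ → ℕ
  c : ℕ → ℤ → ℂ
  τ : ℕ → ℂ
  k_pos : ∀ j, 0 < k j
  one_lt : ∀ j, 1 < ‖τ j‖
  win : ∀ j, IsWindow K (k j) (c j)
  step : ∀ j (n : ℤ), c (j + 1) n = c j (n + k j) * τ j ^ n

end MaxTerm
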