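import Pool.Agent.MaxTerm.LowerA

/-!
# A Lagrange multiplier statement at the minimiser of `thetaMax` (Danskin)

If the maximum of `|θ_{q₀}|` on the unit circle is `K*` and is attained at most at `1`, `z₁`,
`conj z₁`, then a convex combination of the `q`-gradients of `|θ_q(1)|²` and `|θ_q(z₁)|²` is zero:
otherwise there is a direction `d` in which both decrease (for `conj z₁` by the symmetry
`|θ_q(conj z)| = |θ_q(z)|`), and by compactness `thetaMax (q₀ + s d) < K*` for some small `s > 0`.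
-/

open Filter Topology
open scoped ComplexConjugate

namespace MaxTerm

/-- the derivative of `theta q z` in `q` -/
noncomputable def thetaQ (q z : ℂ) : ℂ :=
  ∑' n : ℤ, (((n * (n - 1) / 2).toNat : ℕ) : ℂ) * q ^ ((n * (n - 1) / 2).toNat - 1) * z ^ n

/-! ### summability -/

theorem bernoulli_aux {r δ : ℝ} (hr : 0 ≤ r) (hδ : 0 ≤ δ) (k : ℕ) :
    r ^ k + k * r ^ (k - 1) * δ ≤ (r + δ) ^ k := by
  induction k with
  | zero => simp
  | succ k ih =>
    have h1 : 0 ≤ r + δ := by linarith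
    have h2 : (r + δ) * (r ^ k + k * r ^ (k - 1) * δ) ≤ (r + δ) ^ (k + 1) := by
      rw [pow_succ (r + δ), mul_comm ((r + δ) ^ k)]
      exact mul_le_mul_of_nonneg_left ih h1
    have h3 : (k : ℝ) * (r * r ^ (k - 1)) = k * r ^ k := by
      rcases Nat.eq_zero_or_pos k with h0 | h0
      · simp [h0]
      · rw [← pow_succ', Nat.sub_add_cancel h0]
    refine le_trans ?_ h2
    have h4 : 0 ≤ (k : ℝ) * r ^ (k - 1) * δ ^ 2 := by positivity
    rw [Nat.add_sub_cancel]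
    push_cast
    have h5 : (r + δ) * (r ^ k + k * r ^ (k - 1) * δ) =
        r ^ (k + 1) + (k * (r * r ^ (k - 1)) * δ + r ^ k * δ) + k * r ^ (k - 1) * δ ^ 2 := by ring
    rw [h5, h3]
    linarith

theorem summable_deriv {r : ℝ} (h0 : 0 ≤ r) (h1 : r < 1) :
    Summable (fun n : ℤ => (((n * (n - 1) / 2).toNat : ℕ) : ℝ) *
      r ^ ((n * (n - 1) / 2).toNat - 1)) := by
  have hδ : 0 < (1 - r) / 2 := by linarith
  have hs := (summable_int_one (ρ := r + (1 - r) / 2) (by linarith) (by linarith)).mul_left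
    (((1 - r) / 2)⁻¹)
  refine Summable.of_nonneg_of_le (fun n => by positivity) (fun n => ?_) hs
  rw [inv_mul_eq_div, le_div_iff₀ hδ]
  have h2 := bernoulli_aux h0 hδ.le (n * (n - 1) / 2).toNat
  have h3 : 0 ≤ r ^ (n * (n - 1) / 2).toNat := pow_nonneg h0 _
  linarith

theorem norm_term' {q z : ℂ} (hz : ‖z‖ = 1) (k : ℕ) (m : ℕ) (n : ℤ) :
    ‖(k : ℂ) * q ^ m * z ^ n‖ = k * ‖q‖ ^ m := by
  rw [norm_mul, norm_mul, norm_pow, norm_zpow, hz, one_zpow, mul_one, Complex.norm_natCast]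

/-- the derivative in `q` -/
theorem hasDerivAt_theta {q z : ℂ} (hq : ‖q‖ < 1) (hz : ‖z‖ = 1) :
    HasDerivAt (fun q => theta q z) (thetaQ q z) q := by
  obtain ⟨r, hr1, hr2⟩ := exists_between hq
  have hr0 : 0 ≤ r := (norm_nonneg q).trans hr1.le
  have hqb : q ∈ Metric.ball (0 : ℂ) r := by simpa using hr1
  refine hasDerivAt_tsum_of_isPreconnected (t := Metric.ball (0 : ℂ) r) (summable_deriv hr0 hr2)
    Metric.isOpen_ball (convex_ball _ _).isPreconnected (y₀ := q)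
    (g := fun (n : ℤ) q => q ^ (n * (n - 1) / 2).toNat * z ^ n)
    (g' := fun (n : ℤ) q => (((n * (n - 1) / 2).toNat : ℕ) : ℂ) *
      q ^ ((n * (n - 1) / 2).toNat - 1) * z ^ n) ?_ ?_ hqb ?_ hqb
  · intro n y _
    exact (hasDerivAt_pow _ y).mul_const _
  · intro n y hy
    rw [norm_term' hz]
    have hy' : ‖y‖ ≤ r := by
      have : ‖y‖ < r := by simpa using hy
      exact this.le
    exact mul_le_mul_of_nonneg_left (pow_le_pow_left₀ (norm_nonneg _) hy' _) (Nat.cast_nonneg _)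
  · refine Summable.of_norm ((summable_int_one (norm_nonneg q) hq).congr fun n => ?_)
    rw [norm_term hz]

/-! ### joint continuity -/

theorem continuousOn_zpow_fst {r : ℝ} (n : ℤ) : ContinuousOn (fun w : ℂ × ℂ => w.2 ^ n)
    (Metric.closedBall (0 : ℂ) r ×ˢ Metric.sphere (0 : ℂ) 1) := by
  refine ContinuousOn.zpow₀ continuous_snd.continuousOn n fun w hw => Or.inl ?_
  have h1 : ‖w.2‖ = 1 := mem_sphere_zero_iff_norm.1 hw.2
  intro h
  rw [h, norm_zero] at h1
  exact zero_ne_one h1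

theorem continuousOn_theta {r : ℝ} (h0 : 0 ≤ r) (h1 : r < 1) :
    ContinuousOn (fun w : ℂ × ℂ => theta w.1 w.2)
      (Metric.closedBall (0 : ℂ) r ×ˢ Metric.sphere (0 : ℂ) 1) := by
  refine continuousOn_tsum (u := fun n : ℤ => r ^ (n * (n - 1) / 2).toNat)
    (f := fun (n : ℤ) (w : ℂ × ℂ) => w.1 ^ (n * (n - 1) / 2).toNat * w.2 ^ n) ?_
    (summable_int_one h0 h1) ?_
  · intro n
    exact (continuous_fst.pow _).continuousOn.mul (continuousOn_zpow_fst n)
  · intro n w hw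
    rw [norm_term (mem_sphere_zero_iff_norm.1 hw.2)]
    exact pow_le_pow_left₀ (norm_nonneg _) (mem_closedBall_zero_iff.1 hw.1) _

theorem continuousOn_thetaQ {r : ℝ} (h0 : 0 ≤ r) (h1 : r < 1) :
    ContinuousOn (fun w : ℂ × ℂ => thetaQ w.1 w.2)
      (Metric.closedBall (0 : ℂ) r ×ˢ Metric.sphere (0 : ℂ) 1) := by
  refine continuousOn_tsum (u := fun n : ℤ => (((n * (n - 1) / 2).toNat : ℕ) : ℝ) *
      r ^ ((n * (n - 1) / 2).toNat - 1))
    (f := fun (n : ℤ) (w : ℂ × ℂ) => (((n * (n - 1) / 2).toNat : ℕ) : ℂ) *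
      w.1 ^ ((n * (n - 1) / 2).toNat - 1) * w.2 ^ n) ?_
    (summable_deriv h0 h1) ?_
  · intro n
    exact (continuous_const.mul (continuous_fst.pow _)).continuousOn.mul (continuousOn_zpow_fst n)
  · intro n w hw
    rw [norm_term' (mem_sphere_zero_iff_norm.1 hw.2)]
    exact mul_le_mul_of_nonneg_left
      (pow_le_pow_left₀ (norm_nonneg _) (mem_closedBall_zero_iff.1 hw.1) _) (Nat.cast_nonneg _)

/-! ### symmetry -/

theorem ex_symm (n : ℤ) : (1 - n) * ((1 - n) - 1) / 2 = n * (n - 1) / 2 := by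
  congr 1
  ring

theorem theta_symm (q : ℂ) {z : ℂ} (hz : z ≠ 0) : theta q z = z * theta q z⁻¹ := by
  rw [theta, theta, ← (Equiv.subLeft (1 : ℤ)).tsum_eq, ← tsum_mul_left]
  refine tsum_congr fun n => ?_
  rw [Equiv.subLeft_apply, ex_symm, inv_zpow, zpow_sub₀ hz, zpow_one]
  field_simp

theorem thetaQ_symm (q : ℂ) {z : ℂ} (hz : z ≠ 0) : thetaQ q z = z * thetaQ q z⁻¹ := by
  rw [thetaQ, thetaQ, ← (Equiv.subLeft (1 : ℤ)).tsum_eq, ← tsum_mul_left]
  refine tsum_congr fun n => ?_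
  rw [Equiv.subLeft_apply, ex_symm, inv_zpow, zpow_sub₀ hz, zpow_one]
  field_simp

theorem grad_symm (q : ℂ) {z : ℂ} (hz : ‖z‖ = 1) :
    conj (theta q (conj z)) * thetaQ q (conj z) = conj (theta q z) * thetaQ q z := by
  have hz0 : z ≠ 0 := by
    intro h
    rw [h, norm_zero] at hz
    exact zero_ne_one hz
  have h1 : conj z = z⁻¹ := by
    rw [Complex.inv_def, Complex.normSq_eq_norm_sq, hz]
    simp
  have h2 : conj z * z = 1 := by
    rw [h1, inv_mul_cancel₀ hz0]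
  rw [theta_symm q hz0, thetaQ_symm q hz0, map_mul, ← h1]
  linear_combination (-(conj (theta q (conj z)) * thetaQ q (conj z))) * h2

/-! ### the direction -/

theorem exists_direction (a b : ℂ) (h : ∀ lA lB : ℝ, 0 ≤ lA → 0 ≤ lB → lA + lB = 1 →
    (lA : ℂ) * a + lB * b ≠ 0) : ∃ d : ℂ, (a * d).re < 0 ∧ (b * d).re < 0 := by
  have h0 : (0 : ℂ) ∉ segment ℝ a b := by
    rintro ⟨lA, lB, hA, hB, hAB, h1⟩
    refine h lA lB hA hB hAB ?_
    rw [← h1]
    simp
  obtain ⟨f, u, hu0, hu⟩ := geometric_hahn_banach_point_closed (convex_segment a b)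
    (by
      have : IsCompact (segment ℝ a b) := by
        rw [segment_eq_image ℝ a b]
        exact isCompact_Icc.image (by fun_prop)
      exact this.isClosed) h0
  rw [map_zero] at hu0
  have hf : ∀ z : ℂ, f z = (z * (f 1 - f Complex.I * Complex.I)).re := by
    intro z
    have h2 : z = z.re • (1 : ℂ) + z.im • Complex.I := by
      rw [Complex.real_smul, Complex.real_smul, mul_one]
      exact (Complex.re_add_im z).symm
    conv_lhs => rw [h2]
    rw [map_add, map_smul, map_smul, smul_eq_mul, smul_eq_mul]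
    simp [Complex.mul_re, Complex.sub_re, Complex.sub_im]
  refine ⟨-(f 1 - f Complex.I * Complex.I), ?_, ?_⟩
  · rw [mul_neg, Complex.neg_re, ← hf]
    linarith [hu a (left_mem_segment ℝ a b)]
  · rw [mul_neg, Complex.neg_re, ← hf]
    linarith [hu b (right_mem_segment ℝ a b)]

/-! ### the maximum is attained -/

theorem exists_max {q : ℂ} (hq : ‖q‖ < 1) : ∃ z : ℂ, ‖z‖ = 1 ∧ ‖theta q z‖ = thetaMax q := by
  obtain ⟨r, hr1, hr2⟩ := exists_between hq
  have hr0 : 0 ≤ r := (norm_nonneg q).trans hr1.le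
  have hc : ContinuousOn (fun z : ℂ => ‖theta q z‖) (Metric.sphere (0 : ℂ) 1) := by
    refine ContinuousOn.norm ?_
    refine (continuousOn_theta hr0 hr2).comp (f := fun z : ℂ => (q, z)) (by fun_prop) ?_
    intro z hz
    exact ⟨by simpa using hr1.le, hz⟩
  obtain ⟨z, hz, hmax⟩ := (isCompact_sphere (0 : ℂ) 1).exists_isMaxOn
    (⟨1, by simp⟩ : (Metric.sphere (0 : ℂ) 1).Nonempty) hc
  refine ⟨z, mem_sphere_zero_iff_norm.1 hz, le_antisymm (norm_theta_le hq
    (mem_sphere_zero_iff_norm.1 hz)) ?_⟩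
  refine csSup_le ⟨_, 1, by simp, rfl⟩ ?_
  rintro _ ⟨w, hw, rfl⟩
  exact hmax hw

theorem Kstar_le {q : ℂ} (hq : ‖q‖ < 1) : Kstar ≤ thetaMax q := by
  refine csInf_le ⟨0, ?_⟩ ⟨q, by simpa using hq, rfl⟩
  rintro _ ⟨q, _, rfl⟩
  exact thetaMax_nonneg q

/-- **Danskin**: a convex combination of the gradients at the maximum points vanishes. -/
theorem danskin {q₀ : ℂ} (hq : ‖q₀‖ < 1) (hK : thetaMax q₀ = Kstar) {z₁ : ℂ} (hz₁ : ‖z₁‖ = 1)
    (hact : ∀ z : ℂ, ‖z‖ = 1 → ‖theta q₀ z‖ = Kstar → z = 1 ∨ z = z₁ ∨ z = conj z₁) :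
    ∃ lA lB : ℝ, 0 ≤ lA ∧ 0 ≤ lB ∧ lA + lB = 1 ∧
      (lA : ℂ) * (conj (theta q₀ 1) * thetaQ q₀ 1) +
        lB * (conj (theta q₀ z₁) * thetaQ q₀ z₁) = 0 := by
  by_contra hcon
  push Not at hcon
  obtain ⟨d, hdA, hdB⟩ := exists_direction _ _ hcon
  -- gradients at all active points are negative in the direction `d`
  have hneg : ∀ z : ℂ, ‖z‖ = 1 → ‖theta q₀ z‖ = Kstar →
      (conj (theta q₀ z) * (thetaQ q₀ z * d)).re < 0 := by
    intro z hz hz'
    rw [← mul_assoc]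
    rcases hact z hz hz' with rfl | rfl | rfl
    · exact hdA
    · exact hdB
    · rw [grad_symm q₀ hz₁]
      exact hdB
  obtain ⟨r, hr1, hr2⟩ := exists_between hq
  have hr0 : 0 < r := (norm_nonneg q₀).trans_lt hr1
  -- the step
  obtain ⟨δ, hδ0, hδ⟩ : ∃ δ : ℝ, 0 < δ ∧ ∀ s : ℝ, 0 ≤ s → s ≤ δ → ‖q₀ + s * d‖ ≤ r := by
    refine ⟨(r - ‖q₀‖) / (‖d‖ + 1), by
      have := norm_nonneg d
      exact div_pos (by linarith) (by linarith), fun s hs0 hs => ?_⟩
    have hd1 : 0 < ‖d‖ + 1 := by have := norm_nonneg d; linarith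
    rw [le_div_iff₀ hd1] at hs
    refine (norm_add_le _ _).trans ?_
    rw [norm_mul, Complex.norm_real, Real.norm_of_nonneg hs0]
    nlinarith
  have hlt : ∀ s : ℝ, 0 ≤ s → s ≤ δ → ‖q₀ + s * d‖ < 1 := fun s h1 h2 =>
    (hδ s h1 h2).trans_lt hr2
  set t : ℕ → ℝ := fun n => δ / (n + 1) with ht
  have ht0 : ∀ n, 0 < t n := fun n => by rw [ht]; positivity
  have htδ : ∀ n, t n ≤ δ := fun n => by
    rw [ht]
    refine div_le_self hδ0.le ?_
    have : (0 : ℝ) ≤ n := Nat.cast_nonneg n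
    linarith
  have htlim : Tendsto t atTop (𝓝 0) := by
    have h1 := tendsto_one_div_add_atTop_nhds_zero_nat (𝕜 := ℝ)
    have h2 := h1.const_mul δ
    rw [mul_zero] at h2
    refine h2.congr fun n => ?_
    rw [ht]
    ring
  choose z hz hzmax using fun n => exists_max (hlt (t n) (ht0 n).le (htδ n))
  -- mean value theorem
  have hmv : ∀ n, ∃ s : ℝ, 0 < s ∧ s < t n ∧
      0 ≤ (conj (theta (q₀ + s * d) (z n)) * (thetaQ (q₀ + s * d) (z n) * d)).re := by
    intro n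
    have hder : ∀ s : ℝ, 0 ≤ s → s ≤ δ → HasDerivAt (fun s : ℝ => ‖theta (q₀ + s * d) (z n)‖ ^ 2)
        (2 * (conj (theta (q₀ + s * d) (z n)) * (thetaQ (q₀ + s * d) (z n) * d)).re) s := by
      intro s h1 h2
      have h3 : HasDerivAt (fun s : ℝ => q₀ + s * d) d s := by
        have := ((hasDerivAt_id s).ofReal_comp.mul_const d).const_add q₀
        simpa using this
      have h4 : HasDerivAt (fun s : ℝ => theta (q₀ + s * d) (z n))
          (thetaQ (q₀ + s * d) (z n) * d) s :=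
        HasDerivAt.comp (h₂ := fun q => theta q (z n)) s (hasDerivAt_theta (hlt s h1 h2) (hz n)) h3
      have h5 := h4.norm_sq
      rw [Complex.inner, mul_comm (thetaQ _ _ * d)] at h5
      exact h5
    obtain ⟨s, hs, hs'⟩ := exists_hasDerivAt_eq_slope
      (fun s : ℝ => ‖theta (q₀ + s * d) (z n)‖ ^ 2)
      (fun s : ℝ => 2 * (conj (theta (q₀ + s * d) (z n)) * (thetaQ (q₀ + s * d) (z n) * d)).re)
      (ht0 n)
      (fun s hs => (hder s hs.1 (hs.2.trans (htδ n))).continuousAt.continuousWithinAt)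
      (fun s hs => hder s hs.1.le (hs.2.le.trans (htδ n)))
    refine ⟨s, hs.1, hs.2, ?_⟩
    have h6 : ‖theta (q₀ + ((0 : ℝ) : ℂ) * d) (z n)‖ ≤ ‖theta (q₀ + (t n : ℂ) * d) (z n)‖ := by
      rw [hzmax n, Complex.ofReal_zero, zero_mul, add_zero]
      refine (norm_theta_le hq (hz n)).trans ?_
      rw [hK]
      exact Kstar_le (hlt (t n) (ht0 n).le (htδ n))
    have h7 : 0 ≤ (‖theta (q₀ + (t n : ℂ) * d) (z n)‖ ^ 2 -
        ‖theta (q₀ + ((0 : ℝ) : ℂ) * d) (z n)‖ ^ 2) / (t n - 0) := by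
      refine div_nonneg ?_ (by linarith [ht0 n])
      rw [sub_nonneg]
      exact pow_le_pow_left₀ (norm_nonneg _) h6 2
    rw [← hs'] at h7
    linarith
  choose s hs0 hst hs using hmv
  -- a convergent subsequence
  obtain ⟨zs, hzs, φ, hφ, hφlim⟩ := (isCompact_sphere (0 : ℂ) 1).tendsto_subseq
    (fun n => mem_sphere_zero_iff_norm.2 (hz n))
  have hzs1 : ‖zs‖ = 1 := mem_sphere_zero_iff_norm.1 hzs
  have htφ : Tendsto (fun n => t (φ n)) atTop (𝓝 0) := htlim.comp hφ.tendsto_atTop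
  have hsφ : Tendsto (fun n => s (φ n)) atTop (𝓝 0) :=
    squeeze_zero (fun n => (hs0 (φ n)).le) (fun n => (hst (φ n)).le) htφ
  have hmem0 : (q₀, zs) ∈ Metric.closedBall (0 : ℂ) r ×ˢ Metric.sphere (0 : ℂ) 1 :=
    ⟨by simpa using hr1.le, hzs⟩
  have hpt : ∀ x : ℕ → ℝ, (∀ n, 0 ≤ x n) → (∀ n, x n ≤ δ) → Tendsto x atTop (𝓝 0) →
      Tendsto (fun n => ((q₀ + (x n : ℂ) * d, z (φ n)) : ℂ × ℂ)) atTop
        (𝓝[Metric.closedBall (0 : ℂ) r ×ˢ Metric.sphere (0 : ℂ) 1] (q₀, zs)) := by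
    intro x hx0 hxδ hx
    refine tendsto_nhdsWithin_iff.2 ⟨?_, Eventually.of_forall fun n => ⟨?_, ?_⟩⟩
    · refine Tendsto.prodMk_nhds ?_ hφlim
      have h1 : Tendsto (fun n => (x n : ℂ)) atTop (𝓝 ((0 : ℝ) : ℂ)) :=
        (Complex.continuous_ofReal.tendsto 0).comp hx
      have h2 := (h1.mul_const d).const_add q₀
      simpa using h2
    · simpa using hδ (x n) (hx0 n) (hxδ n)
    · exact mem_sphere_zero_iff_norm.2 (hz (φ n))
  have hT := (continuousOn_theta hr0.le hr2) _ hmem0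
  have hTQ := (continuousOn_thetaQ hr0.le hr2) _ hmem0
  have hpt1 := hpt (fun n => t (φ n)) (fun n => (ht0 _).le) (fun n => htδ _) htφ
  have hpt2 := hpt (fun n => s (φ n)) (fun n => (hs0 _).le) (fun n => (hst _).le.trans (htδ _)) hsφ
  -- the limit point is active
  have hact' : ‖theta q₀ zs‖ = Kstar := by
    refine le_antisymm ((norm_theta_le hq hzs1).trans hK.le) ?_
    have h1 : Tendsto (fun n => ‖theta (q₀ + (t (φ n) : ℂ) * d) (z (φ n))‖) atTop
        (𝓝 ‖theta q₀ zs‖) := (hT.tendsto.comp hpt1).norm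
    refine ge_of_tendsto' h1 fun n => ?_
    rw [hzmax (φ n)]
    exact Kstar_le (hlt _ (ht0 _).le (htδ _))
  have h2 : Tendsto (fun n => (conj (theta (q₀ + (s (φ n) : ℂ) * d) (z (φ n))) *
      (thetaQ (q₀ + (s (φ n) : ℂ) * d) (z (φ n)) * d)).re) atTop
      (𝓝 (conj (theta q₀ zs) * (thetaQ q₀ zs * d)).re) := by
    have g1 := hT.tendsto.comp hpt2
    have g2 := hTQ.tendsto.comp hpt2
    have g3 := (Complex.continuous_conj.tendsto _).comp g1
    have g4 := g2.mul_const d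
    have g5 := (Complex.continuous_re.tendsto _).comp (g3.mul g4)
    exact g5
  have h3 : 0 ≤ (conj (theta q₀ zs) * (thetaQ q₀ zs * d)).re :=
    ge_of_tendsto' h2 fun n => hs (φ n)
  exact absurd (hneg zs hzs1 hact') (not_lt.2 h3)

end MaxTerm
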