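import Pool.Agent.MaxTerm.Basic

/-! Bessel inequality on the unit circle for absolutely convergent Laurent series. -/

open Filter Topology MeasureTheory

namespace MaxTerm

/-- Bessel: the coefficients of an absolutely convergent Laurent series bounded by `K` on the
unit circle have square sum at most `K ^ 2`. -/
theorem bessel (c : ℤ → ℂ) (hc : Summable (fun n => ‖c n‖)) {K : ℝ} (hK0 : 0 ≤ K)
    (hK : ∀ z : ℂ, ‖z‖ = 1 → ‖∑' n : ℤ, c n * z ^ n‖ ≤ K) (S : Finset ℤ) :
    ∑ n ∈ S, ‖c n‖ ^ 2 ≤ K ^ 2 := by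
  have hT : Fact ((0 : ℝ) < 1) := ⟨one_pos⟩
  have hsum : Summable (fun n : ℤ => c n • (fourier n : C(AddCircle (1 : ℝ), ℂ))) := by
    apply Summable.of_norm
    refine hc.congr fun n => ?_
    rw [norm_smul, fourier_norm, mul_one]
  set F : C(AddCircle (1 : ℝ), ℂ) := ∑' n : ℤ, c n • fourier n with hF
  have hFs : HasSum (fun n : ℤ => c n • (fourier n : C(AddCircle (1 : ℝ), ℂ))) F := hsum.hasSum
  -- pointwise
  have hpt : ∀ x : AddCircle (1 : ℝ), F x = ∑' n : ℤ, c n * (Circle.coeHom (AddCircle.toCircle x)) ^ n := by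
    intro x
    have h1 := hFs.map (ContinuousMap.evalCLM ℂ x : C(AddCircle (1 : ℝ), ℂ) →L[ℂ] ℂ)
      (ContinuousLinearMap.continuous _)
    have h2 := h1.tsum_eq
    change _ = F x at h2
    rw [← h2]
    refine tsum_congr fun n => ?_
    simp only [Function.comp_apply]
    change c n • (fourier n : C(AddCircle (1 : ℝ), ℂ)) x = _
    rw [fourier_apply, AddCircle.toCircle_zsmul, smul_eq_mul, Circle.coe_zpow]
    rfl
  have hFb : ∀ x : AddCircle (1 : ℝ), ‖F x‖ ≤ K := by
    intro x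
    rw [hpt x]
    exact hK _ (Circle.norm_coe _)
  let v : ℤ → Lp ℂ 2 (@AddCircle.haarAddCircle 1 hT) := @fourierLp 1 hT 2 _
  have hv : Orthonormal ℂ v := orthonormal_fourier
  let X : Lp ℂ 2 (@AddCircle.haarAddCircle 1 hT) :=
    ContinuousMap.toLp (E := ℂ) 2 AddCircle.haarAddCircle ℂ F
  have hXn : ‖X‖ ≤ K := by
    have h1 := Lp.norm_le_of_ae_bound (f := X) hK0 (by
      filter_upwards [ContinuousMap.coeFn_toLp (p := 2) (𝕜 := ℂ) AddCircle.haarAddCircle F] with x hx
      rw [hx]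
      exact hFb x)
    have h2 : measureUnivNNReal (@AddCircle.haarAddCircle 1 hT) = 1 := by
      simp [measureUnivNNReal]
    rw [h2] at h1
    simpa using h1
  have hinner : ∀ m : ℤ, inner ℂ (v m) X = c m := by
    intro m
    have h1 := hFs.map (((innerSL ℂ (v m)).comp
      (ContinuousMap.toLp (E := ℂ) 2 (@AddCircle.haarAddCircle 1 hT) ℂ)) :
        C(AddCircle (1 : ℝ), ℂ) →L[ℂ] ℂ) (ContinuousLinearMap.continuous _)
    have h2 : HasSum (fun n : ℤ => if n = m then c m else 0) (c m) := hasSum_ite_eq m (c m)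
    refine h1.unique ?_
    convert h2 using 1
    funext n
    simp only [Function.comp_apply, map_smul, smul_eq_mul]
    have h3 := orthonormal_iff_ite.1 hv m n
    have h4 : (((innerSL ℂ (v m)).comp
      (ContinuousMap.toLp (E := ℂ) 2 (@AddCircle.haarAddCircle 1 hT) ℂ)) :
        C(AddCircle (1 : ℝ), ℂ) →L[ℂ] ℂ) (fourier n) = inner ℂ (v m) (v n) := rfl
    rw [h4, h3]
    by_cases h : n = m
    · subst h; simp
    · rw [if_neg h, if_neg (Ne.symm h), mul_zero]
  have h5 := hv.sum_inner_products_le (s := S) X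
  calc ∑ n ∈ S, ‖c n‖ ^ 2 = ∑ n ∈ S, ‖inner ℂ (v n) X‖ ^ 2 := by
        refine Finset.sum_congr rfl fun n _ => ?_
        rw [hinner]
    _ ≤ ‖X‖ ^ 2 := h5
    _ ≤ K ^ 2 := pow_le_pow_left₀ (norm_nonneg _) hXn 2

end MaxTerm
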