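import Pool.Agent.MaxTerm.LowerC

/-! The lower bound `β ≥ 1/K*` (task T2).
`exists_thetaMax_eq_Kstar`, `two_le_thetaMax_sq` are in `LowerA`; `bessel` (general Parseval) in
`Parseval`; `coeff_of_hasSum`, `cauchy_le`, `le_maxTerm`, `maxTerm_le_maxMod` in `LowerC`. -/

open Filter Topology

namespace MaxTerm

/-- The function `f = ∑_{n ≥ 0} q^{n(n-1)/2} z^n` for the minimiser `q ≠ 0` of `thetaMax`
has `β_f ≥ 1/K*` (for `q = 0` one has `thetaMax 0 = 2 > K*`). -/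
theorem exists_extremal {q : ℂ} (hq : ‖q‖ < 1) (hq0 : q ≠ 0) :
    TransEntire (fun z => ∑' n : ℕ, q ^ (n * (n - 1) / 2) * z ^ n) ∧
      1 / thetaMax q ≤ betaOf (fun z => ∑' n : ℕ, q ^ (n * (n - 1) / 2) * z ^ n) :=
  ⟨pth_trans hq hq0, exists_extremal' hq hq0⟩

end MaxTerm
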