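import Pool.Agent.MaxTerm.Basic
import Pool.Agent.MaxTerm.Parseval

/-! Theta function: summability, continuity, attained infimum (task T2, part A). -/

open Filter Topology

namespace MaxTerm

theorem two_mul_ex (n : ℤ) : 2 * (n * (n - 1) / 2) = n * (n - 1) :=
  Int.mul_ediv_cancel' (Int.even_mul_pred_self n).two_dvd

theorem ex_nonneg (n : ℤ) : 0 ≤ n * (n - 1) / 2 := by
  have h := two_mul_ex n
  have h2 : 0 ≤ n * (n - 1) := by
    rcases le_or_gt n 0 with h | h
    · nlinarith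
    · nlinarith
  omega

theorem coe_ex (n : ℤ) : (((n * (n - 1) / 2).toNat : ℕ) : ℤ) = n * (n - 1) / 2 :=
  Int.toNat_of_nonneg (ex_nonneg n)

theorem ex_nat (n : ℕ) : (((n : ℤ) * ((n : ℤ) - 1) / 2).toNat) = n * (n - 1) / 2 := by
  have h := coe_ex n
  have h2 := two_mul_ex n
  rcases Nat.eq_zero_or_pos n with h0 | h0
  · subst h0; simp
  · have h3 : 2 * (n * (n - 1) / 2) = n * (n - 1) :=
      Nat.mul_div_cancel' (Nat.even_mul_pred_self n).two_dvd
    have h4 : ((n * (n - 1) : ℕ) : ℤ) = (n : ℤ) * ((n : ℤ) - 1) := by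
      push_cast [Nat.cast_sub h0]; ring
    omega

theorem ex_neg (n : ℕ) : ((-((n : ℤ) + 1)) * (-((n : ℤ) + 1) - 1) / 2).toNat
    = n * (n - 1) / 2 + (2 * n + 1) := by
  have h := coe_ex (-((n : ℤ) + 1))
  have h2 := two_mul_ex (-((n : ℤ) + 1))
  have h3 : 2 * (n * (n - 1) / 2) = n * (n - 1) :=
    Nat.mul_div_cancel' (Nat.even_mul_pred_self n).two_dvd
  have h4 : ((n * (n - 1) : ℕ) : ℤ) = (n : ℤ) * ((n : ℤ) - 1) := by
    rcases Nat.eq_zero_or_pos n with h0 | h0
    · subst h0; simp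
    · push_cast [Nat.cast_sub h0]; ring
  have h5 : (-((n : ℤ) + 1)) * (-((n : ℤ) + 1) - 1) = (n : ℤ) * ((n : ℤ) - 1) + 2 * (2 * n + 1) := by
    ring
  rw [h5] at h2
  omega

theorem tri_succ (n : ℕ) : (n + 1) * (n + 1 - 1) / 2 = n * (n - 1) / 2 + n := by
  have h3 : 2 * (n * (n - 1) / 2) = n * (n - 1) :=
    Nat.mul_div_cancel' (Nat.even_mul_pred_self n).two_dvd
  have h4 : 2 * ((n + 1) * (n + 1 - 1) / 2) = (n + 1) * (n + 1 - 1) :=
    Nat.mul_div_cancel' (Nat.even_mul_pred_self (n + 1)).two_dvd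
  have h5 : (n + 1) * (n + 1 - 1) = n * (n - 1) + 2 * n := by
    rcases Nat.eq_zero_or_pos n with h0 | h0
    · subst h0; simp
    · obtain ⟨m, rfl⟩ : ∃ m, n = m + 1 := ⟨n - 1, by omega⟩
      simp only [Nat.add_sub_cancel]
      ring
  omega

/-- super-exponential decay -/
theorem summable_nat {ρ A : ℝ} (h0 : 0 ≤ ρ) (h1 : ρ < 1) (hA : 0 ≤ A) :
    Summable (fun n : ℕ => ρ ^ (n * (n - 1) / 2) * A ^ n) := by
  apply summable_of_ratio_norm_eventually_le (r := 1 / 2) (by norm_num)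
  have ht : Tendsto (fun n : ℕ => ρ ^ n * A) atTop (𝓝 (0 * A)) :=
    (tendsto_pow_atTop_nhds_zero_of_lt_one h0 h1).mul_const A
  rw [zero_mul] at ht
  filter_upwards [ht.eventually (gt_mem_nhds (show (0 : ℝ) < 1 / 2 by norm_num))] with n hn
  rw [Real.norm_of_nonneg (by positivity), Real.norm_of_nonneg (by positivity), tri_succ,
    pow_add, pow_succ A]
  have h3 : 0 ≤ ρ ^ (n * (n - 1) / 2) * A ^ n := by positivity
  calc ρ ^ (n * (n - 1) / 2) * ρ ^ n * (A ^ n * A)
      = (ρ ^ n * A) * (ρ ^ (n * (n - 1) / 2) * A ^ n) := by ring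
    _ ≤ 1 / 2 * (ρ ^ (n * (n - 1) / 2) * A ^ n) := mul_le_mul_of_nonneg_right hn.le h3

theorem summable_int {ρ A : ℝ} (h0 : 0 ≤ ρ) (h1 : ρ < 1) (hA : 0 ≤ A) :
    Summable (fun n : ℤ => ρ ^ (n * (n - 1) / 2).toNat * A ^ n.natAbs) := by
  apply Summable.of_nat_of_neg_add_one
  · refine (summable_nat h0 h1 hA).congr fun n => ?_
    rw [ex_nat, Int.natAbs_natCast]
  · have h := (summable_nat h0 h1 (A := ρ ^ 2 * A) (by positivity)).mul_left (ρ * A)
    refine h.congr fun n => ?_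
    rw [ex_neg]
    have : (-((n : ℤ) + 1)).natAbs = n + 1 := by omega
    rw [this, mul_pow, ← pow_mul]
    ring

theorem summable_int_one {ρ : ℝ} (h0 : 0 ≤ ρ) (h1 : ρ < 1) :
    Summable (fun n : ℤ => ρ ^ (n * (n - 1) / 2).toNat) := by
  refine (summable_int h0 h1 (A := 1) zero_le_one).congr fun n => ?_
  simp

theorem norm_term {q z : ℂ} (hz : ‖z‖ = 1) (n : ℤ) :
    ‖q ^ (n * (n - 1) / 2).toNat * z ^ n‖ = ‖q‖ ^ (n * (n - 1) / 2).toNat := by
  rw [norm_mul, norm_pow, norm_zpow, hz, one_zpow, mul_one]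

theorem summable_norm_coeff {q : ℂ} (hq : ‖q‖ < 1) :
    Summable (fun n : ℤ => ‖q ^ (n * (n - 1) / 2).toNat‖) := by
  refine (summable_int_one (norm_nonneg q) hq).congr fun n => ?_
  rw [norm_pow]

theorem norm_theta_le_tsum {q z : ℂ} (hq : ‖q‖ < 1) (hz : ‖z‖ = 1) :
    ‖theta q z‖ ≤ ∑' n : ℤ, ‖q‖ ^ (n * (n - 1) / 2).toNat := by
  have hs : Summable (fun n : ℤ => ‖q ^ (n * (n - 1) / 2).toNat * z ^ n‖) := by
    refine (summable_int_one (norm_nonneg q) hq).congr fun n => ?_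
    rw [norm_term hz]
  refine le_trans (norm_tsum_le_tsum_norm hs) (le_of_eq ?_)
  exact tsum_congr fun n => norm_term hz n

theorem bddAbove_theta {q : ℂ} (hq : ‖q‖ < 1) :
    BddAbove ((fun z : ℂ => ‖theta q z‖) '' Metric.sphere (0 : ℂ) 1) := by
  refine ⟨∑' n : ℤ, ‖q‖ ^ (n * (n - 1) / 2).toNat, ?_⟩
  rintro _ ⟨z, hz, rfl⟩
  exact norm_theta_le_tsum hq (mem_sphere_zero_iff_norm.1 hz)

theorem norm_theta_le {q z : ℂ} (hq : ‖q‖ < 1) (hz : ‖z‖ = 1) : ‖theta q z‖ ≤ thetaMax q :=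
  le_csSup (bddAbove_theta hq) ⟨z, mem_sphere_zero_iff_norm.2 hz, rfl⟩

theorem thetaMax_nonneg (q : ℂ) : 0 ≤ thetaMax q := by
  apply Real.sSup_nonneg
  rintro _ ⟨z, _, rfl⟩
  exact norm_nonneg _

/-- Parseval for the theta function -/
theorem theta_bessel {q : ℂ} (hq : ‖q‖ < 1) (S : Finset ℤ) :
    ∑ n ∈ S, (‖q‖ ^ (n * (n - 1) / 2).toNat) ^ 2 ≤ thetaMax q ^ 2 := by
  have h := bessel (fun n : ℤ => q ^ (n * (n - 1) / 2).toNat) (summable_norm_coeff hq)
    (thetaMax_nonneg q) (fun z hz => norm_theta_le hq hz) S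
  refine le_trans (le_of_eq ?_) h
  refine Finset.sum_congr rfl fun n _ => ?_
  rw [norm_pow]

/-- Parseval -/
theorem two_le_thetaMax_sq {q : ℂ} (hq : ‖q‖ < 1) : 2 ≤ thetaMax q ^ 2 := by
  have h := theta_bessel hq {0, 1}
  rw [Finset.sum_pair (by norm_num)] at h
  norm_num at h
  exact h

theorem thetaMax_zero_le : thetaMax 0 ≤ 2 := by
  apply csSup_le
  · exact ⟨_, 1, by simp, rfl⟩
  · rintro _ ⟨z, hz, rfl⟩
    have hz := mem_sphere_zero_iff_norm.1 hz
    have h : theta 0 z = 1 + z := by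
      rw [theta, tsum_eq_sum (s := {0, 1})]
      · rw [Finset.sum_pair (by norm_num)]
        norm_num
      · intro n hn
        have hn' : n ≠ 0 ∧ n ≠ 1 := by simpa using hn
        have : (n * (n - 1) / 2).toNat ≠ 0 := by
          have h1 := coe_ex n
          have h2 := two_mul_ex n
          intro h3
          rw [h3] at h1
          rw [← h1] at h2
          have h4 : n * (n - 1) = 0 := by rw [← h2]; norm_num
          rcases mul_eq_zero.1 h4 with h5 | h5
          · exact hn'.1 h5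
          · exact hn'.2 (by omega)
        rw [zero_pow this, zero_mul]
    change ‖theta 0 z‖ ≤ 2
    rw [h]
    refine le_trans (norm_add_le _ _) ?_
    rw [norm_one, hz]
    norm_num

theorem two_le_of_large {q : ℂ} (hq : ‖q‖ < 1) (h9 : 9 / 10 ≤ ‖q‖) : 2 ≤ thetaMax q := by
  have h := theta_bessel hq {0, 1, 2, -1, 3, -2}
  have e : ∑ n ∈ ({0, 1, 2, -1, 3, -2} : Finset ℤ), (‖q‖ ^ (n * (n - 1) / 2).toNat) ^ 2
      = 2 + 2 * ‖q‖ ^ 2 + 2 * ‖q‖ ^ 6 := by
    rw [Finset.sum_insert (by decide), Finset.sum_insert (by decide), Finset.sum_insert (by decide),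
      Finset.sum_insert (by decide), Finset.sum_insert (by decide), Finset.sum_singleton]
    have e3 : (3 * (3 - 1) / 2 : ℤ).toNat = 3 := by decide
    have e2 : (-2 * (-2 - 1) / 2 : ℤ).toNat = 3 := by decide
    have e1 : (-1 * (-1 - 1) / 2 : ℤ).toNat = 1 := by decide
    have e4 : (2 * (2 - 1) / 2 : ℤ).toNat = 1 := by decide
    have e5 : (1 * (1 - 1) / 2 : ℤ).toNat = 0 := by decide
    have e6 : (0 * (0 - 1) / 2 : ℤ).toNat = 0 := by decide
    rw [e1, e2, e3, e4, e5, e6]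
    ring
  rw [e] at h
  have h2 : (9 / 10 : ℝ) ^ 2 ≤ ‖q‖ ^ 2 := pow_le_pow_left₀ (by norm_num) h9 2
  have h6 : (9 / 10 : ℝ) ^ 6 ≤ ‖q‖ ^ 6 := pow_le_pow_left₀ (by norm_num) h9 6
  have h3 := thetaMax_nonneg q
  norm_num at h2 h6
  nlinarith

/-- continuity on a smaller closed disc -/
theorem continuous_thetaMax {r : ℝ} (h0 : 0 ≤ r) (h1 : r < 1) :
    ContinuousOn thetaMax (Metric.closedBall (0 : ℂ) r) := by
  rw [continuousOn_iff_continuous_domRestrict]
  let g : Metric.closedBall (0 : ℂ) r → Metric.sphere (0 : ℂ) 1 → ℝ := fun q z => ‖theta q z‖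
  have hg : Continuous (Function.uncurry g) := by
    have hc : Continuous (fun w : Metric.closedBall (0 : ℂ) r × Metric.sphere (0 : ℂ) 1 =>
        ∑' n : ℤ, (w.1 : ℂ) ^ (n * (n - 1) / 2).toNat * (w.2 : ℂ) ^ n) := by
      apply continuous_tsum (u := fun n : ℤ => r ^ (n * (n - 1) / 2).toNat)
      · intro n
        apply Continuous.mul
        · exact (continuous_subtype_val.comp continuous_fst).pow _
        · rw [continuous_iff_continuousAt]
          intro w
          have hne : ((w.2 : ℂ)) ≠ 0 := by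
            have := w.2.2
            intro h
            rw [h] at this
            simp at this
          have hcc : ContinuousAt (fun w : Metric.closedBall (0 : ℂ) r × Metric.sphere (0 : ℂ) 1 =>
            (w.2 : ℂ)) w := (continuous_subtype_val.comp continuous_snd).continuousAt
          exact hcc.zpow₀ n (Or.inl hne)
      · exact summable_int_one h0 h1
      · intro n w
        rw [norm_term (mem_sphere_zero_iff_norm.1 w.2.2)]
        exact pow_le_pow_left₀ (norm_nonneg _) (mem_closedBall_zero_iff.1 w.1.2) _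
    exact hc.norm
  have h := IsCompact.continuous_sSup (f := g) (K := Set.univ) isCompact_univ hg
  convert h using 1
  funext q
  change thetaMax q.1 = _
  unfold thetaMax
  congr 1
  ext x
  constructor
  · rintro ⟨z, hz, rfl⟩
    exact ⟨⟨z, hz⟩, Set.mem_univ _, rfl⟩
  · rintro ⟨z, -, rfl⟩
    exact ⟨z.1, z.2, rfl⟩

/-- the infimum defining `K*` is attained -/
theorem exists_thetaMax_eq_Kstar : ∃ q : ℂ, ‖q‖ < 1 ∧ thetaMax q = Kstar := by
  obtain ⟨q0, hq0, hmin⟩ := (isCompact_closedBall (0 : ℂ) (9 / 10)).exists_isMinOn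
    (⟨0, Metric.mem_closedBall_self (by norm_num)⟩ : (Metric.closedBall (0 : ℂ) (9 / 10)).Nonempty)
    (continuous_thetaMax (by norm_num) (by norm_num))
  have hq0n : ‖q0‖ ≤ 9 / 10 := by simpa using hq0
  have hq1 : ‖q0‖ < 1 := by linarith
  have h0 : thetaMax q0 ≤ 2 := by
    refine le_trans ?_ thetaMax_zero_le
    exact hmin (Metric.mem_closedBall_self (by norm_num) : (0 : ℂ) ∈ Metric.closedBall (0 : ℂ) (9 / 10))
  have hlb : ∀ q : ℂ, ‖q‖ < 1 → thetaMax q0 ≤ thetaMax q := by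
    intro q hq
    rcases le_total ‖q‖ (9 / 10) with h | h
    · exact hmin (by simpa using h)
    · exact le_trans h0 (two_le_of_large hq h)
  refine ⟨q0, hq1, ?_⟩
  apply le_antisymm
  · apply le_csInf
    · exact ⟨_, 0, by simp, rfl⟩
    · rintro _ ⟨q, hq, rfl⟩
      exact hlb q (by simpa using hq)
  · apply csInf_le
    · refine ⟨0, ?_⟩
      rintro _ ⟨q, _, rfl⟩
      exact thetaMax_nonneg q
    · exact ⟨q0, by simpa using hq1, rfl⟩

end MaxTerm
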