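import Pool.Agent.MaxTerm.LowerA

/-! The partial theta series has `β_f ≥ 1 / thetaMax q` (task T2, part B). -/

open Filter Topology

namespace MaxTerm

theorem ex_add (n : ℕ) (j : ℤ) :
    ((((n : ℤ) + j) * ((n : ℤ) + j - 1) / 2).toNat : ℤ)
      = (n * (n - 1) / 2 : ℕ) + ((j * (j - 1) / 2).toNat : ℤ) + n * j := by
  have h1 := coe_ex ((n : ℤ) + j)
  have h2 := two_mul_ex ((n : ℤ) + j)
  have h3 := coe_ex j
  have h4 := two_mul_ex j
  have h5 := coe_ex (n : ℤ)
  have h6 := two_mul_ex (n : ℤ)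
  rw [ex_nat] at h5
  have h7 : ((n : ℤ) + j) * ((n : ℤ) + j - 1) = (n : ℤ) * ((n : ℤ) - 1) + j * (j - 1) + 2 * (n * j) := by
    ring
  rw [h1, h3, h5]
  have : 2 * (((n : ℤ) + j) * ((n : ℤ) + j - 1) / 2)
    = 2 * ((n : ℤ) * ((n : ℤ) - 1) / 2 + j * (j - 1) / 2 + n * j) := by
    rw [h2, mul_add, mul_add, h6, h4, h7]
  omega

theorem norm_term_le {q w : ℂ} {R : ℝ} (hR : 1 ≤ R) (h1 : ‖w‖ ≤ R) (h2 : R⁻¹ ≤ ‖w‖) (n : ℤ) :
    ‖q ^ (n * (n - 1) / 2).toNat * w ^ n‖
      ≤ ‖q‖ ^ (n * (n - 1) / 2).toNat * R ^ n.natAbs := by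
  rw [norm_mul, norm_pow, norm_zpow]
  apply mul_le_mul_of_nonneg_left _ (by positivity)
  have hw : 0 < ‖w‖ := lt_of_lt_of_le (inv_pos.2 (by linarith)) h2
  rcases Int.eq_nat_or_neg n with ⟨k, rfl | rfl⟩
  · rw [zpow_natCast, Int.natAbs_natCast]
    exact pow_le_pow_left₀ hw.le h1 k
  · rw [zpow_neg, zpow_natCast, Int.natAbs_neg, Int.natAbs_natCast, ← inv_pow]
    apply pow_le_pow_left₀ (by positivity)
    rw [inv_le_comm₀ hw (by linarith)]
    exact h2

theorem summable_theta {q w : ℂ} (hq : ‖q‖ < 1) (hw : w ≠ 0) :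
    Summable (fun n : ℤ => q ^ (n * (n - 1) / 2).toNat * w ^ n) := by
  have hw' : 0 < ‖w‖ := norm_pos_iff.2 hw
  set R := max ‖w‖ (‖w‖⁻¹) with hR
  have h1 : ‖w‖ ≤ R := le_max_left _ _
  have hRpos : 0 < R := lt_of_lt_of_le hw' h1
  have h2 : R⁻¹ ≤ ‖w‖ := by
    rw [inv_le_comm₀ hRpos hw']
    exact le_max_right _ _
  have h3 : 1 ≤ R := by
    rcases le_total 1 ‖w‖ with h | h
    · exact le_trans h h1
    · exact le_trans ((one_le_inv₀ hw').2 h) (le_max_right _ _)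
  exact Summable.of_norm_bounded (summable_int (norm_nonneg q) hq hRpos.le)
    (fun n => norm_term_le h3 h1 h2 n)

theorem differentiableOn_theta {q : ℂ} (hq : ‖q‖ < 1) :
    DifferentiableOn ℂ (theta q) {0}ᶜ := by
  intro w hw
  have hw0 : w ≠ 0 := hw
  have hw' : 0 < ‖w‖ := norm_pos_iff.2 hw0
  set R := max ‖w‖ (‖w‖⁻¹) + 1 with hR
  have h1 : ‖w‖ < R := lt_of_le_of_lt (le_max_left _ _) (by linarith)
  have h3 : 1 ≤ R := by
    have : 0 < max ‖w‖ (‖w‖⁻¹) := lt_of_lt_of_le hw' (le_max_left _ _)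
    linarith
  have h2 : R⁻¹ < ‖w‖ := by
    rw [inv_lt_comm₀ (by linarith) hw']
    exact lt_of_le_of_lt (le_max_right _ _) (by linarith)
  let U : Set ℂ := {v | R⁻¹ < ‖v‖} ∩ {v | ‖v‖ < R}
  have hU : IsOpen U :=
    (isOpen_lt continuous_const continuous_norm).inter (isOpen_lt continuous_norm continuous_const)
  have hwU : w ∈ U := ⟨h2, h1⟩
  have hd : DifferentiableOn ℂ (fun v : ℂ => ∑' n : ℤ, q ^ (n * (n - 1) / 2).toNat * v ^ n) U := by
    apply Complex.differentiableOn_tsum_of_summable_norm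
      (summable_int (norm_nonneg q) hq (by linarith : 0 ≤ R))
    · intro n v hv
      have hv0 : v ≠ 0 := by
        rintro rfl
        have := hv.1
        simp only [Set.mem_ofPred_eq, norm_zero] at this
        exact absurd this (not_lt.2 (inv_nonneg.2 (by linarith)))
      exact ((differentiableAt_zpow.2 (Or.inl hv0)).const_mul _).differentiableWithinAt
    · exact hU
    · intro n v hv
      exact norm_term_le h3 (le_of_lt hv.2) (le_of_lt hv.1) n
  exact ((hd w hwU).differentiableAt (hU.mem_nhds hwU)).differentiableWithinAt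

/-- functional equation -/
theorem theta_div {q w : ℂ} (hq0 : q ≠ 0) (hw : w ≠ 0) :
    theta q (w / q) = q⁻¹ * w * theta q w := by
  have hsh : ∑' n : ℤ, q⁻¹ * w * (q ^ (n * (n - 1) / 2).toNat * w ^ n)
      = ∑' n : ℤ, q⁻¹ * w * (q ^ ((n - 1) * (n - 1 - 1) / 2).toNat * w ^ (n - 1)) :=
    ((Equiv.subRight (1 : ℤ)).tsum_eq
      (fun n : ℤ => q⁻¹ * w * (q ^ (n * (n - 1) / 2).toNat * w ^ n))).symm
  rw [theta, theta, ← tsum_mul_left, hsh]
  refine tsum_congr fun n => ?_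
  have h := ex_add 1 (n - 1)
  have e : ((1 : ℕ) : ℤ) + (n - 1) = n := by push_cast; ring
  rw [e] at h
  have h' : ((n * (n - 1) / 2).toNat : ℤ) = (((n - 1) * (n - 1 - 1) / 2).toNat : ℤ) + (n - 1) := by
    rw [h]; norm_num
  rw [← zpow_natCast q (n * (n - 1) / 2).toNat, h', zpow_add₀ hq0, zpow_natCast, div_zpow,
    zpow_sub₀ hq0, zpow_one]
  have e2 : w ^ n = w * w ^ (n - 1) := by
    rw [← zpow_one_add₀ hw]; congr 1; ring
  rw [e2]
  have hqn : q ^ n ≠ 0 := zpow_ne_zero _ hq0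
  field_simp

/-- maximum principle on the fundamental annulus -/
theorem theta_annulus {q w : ℂ} (hq : ‖q‖ < 1) (hq0 : q ≠ 0) (h1 : 1 ≤ ‖w‖)
    (h2 : ‖w‖ ≤ ‖q‖⁻¹) : ‖w⁻¹ * theta q w‖ ≤ thetaMax q := by
  have hqp : 0 < ‖q‖ := norm_pos_iff.2 hq0
  have hin : ∀ w : ℂ, ‖w‖ = 1 → ‖w⁻¹ * theta q w‖ ≤ thetaMax q := by
    intro w hw
    rw [norm_mul, norm_inv, hw, inv_one, one_mul]
    exact norm_theta_le hq hw
  have hout : ∀ w : ℂ, ‖w‖ = ‖q‖⁻¹ → ‖w⁻¹ * theta q w‖ ≤ thetaMax q := by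
    intro w hw
    have hw0 : w ≠ 0 := by
      rintro rfl
      rw [norm_zero] at hw
      exact (inv_ne_zero hqp.ne') hw.symm
    have hv : ‖w * q‖ = 1 := by rw [norm_mul, hw, inv_mul_cancel₀ hqp.ne']
    have hv0 : w * q ≠ 0 := mul_ne_zero hw0 hq0
    have e : w = (w * q) / q := by rw [mul_div_cancel_right₀ _ hq0]
    have e2 : theta q w = q⁻¹ * (w * q) * theta q (w * q) := by
      conv_lhs => rw [e]
      exact theta_div hq0 hv0
    rw [e2]
    have e3 : w⁻¹ * (q⁻¹ * (w * q) * theta q (w * q)) = theta q (w * q) := by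
      field_simp
    rw [e3]
    exact norm_theta_le hq hv
  rcases eq_or_lt_of_le h1 with h | h1'
  · exact hin w h.symm
  rcases eq_or_lt_of_le h2 with h | h2'
  · exact hout w h
  let A : Set ℂ := {v | 1 < ‖v‖} ∩ {v | ‖v‖ < ‖q‖⁻¹}
  have hAo : IsOpen A :=
    (isOpen_lt continuous_const continuous_norm).inter (isOpen_lt continuous_norm continuous_const)
  have hcl : closure A ⊆ {v | 1 ≤ ‖v‖} ∩ {v | ‖v‖ ≤ ‖q‖⁻¹} := by
    apply closure_minimal
    · intro v hv
      simp only [A, Set.mem_inter_iff, Set.mem_ofPred_eq] at hv ⊢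
      exact ⟨hv.1.le, hv.2.le⟩
    · exact (isClosed_le continuous_const continuous_norm).inter
        (isClosed_le continuous_norm continuous_const)
  have hb : Bornology.IsBounded A := by
    apply (Metric.isBounded_ball (x := (0 : ℂ)) (r := ‖q‖⁻¹)).subset
    rintro v ⟨_, h2⟩
    exact mem_ball_zero_iff.2 h2
  have hdiff : DiffContOnCl ℂ (fun v => v⁻¹ * theta q v) A := by
    apply DifferentiableOn.diffContOnCl
    have hsub : closure A ⊆ {0}ᶜ := by
      intro v hv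
      have := (hcl hv).1
      simp only [Set.mem_ofPred_eq] at this
      intro h0
      rw [Set.mem_singleton_iff] at h0
      rw [h0, norm_zero] at this
      norm_num at this
    apply DifferentiableOn.mul
    · exact (differentiableOn_inv).mono (fun v hv => hsub hv)
    · exact (differentiableOn_theta hq).mono hsub
  refine Complex.norm_le_of_forall_mem_frontier_norm_le hb hdiff ?_ (subset_closure ⟨h1', h2'⟩)
  intro v hv
  rw [frontier, hAo.interior_eq] at hv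
  have hv1 := hcl hv.1
  have hv2 := hv.2
  simp only [Set.mem_inter_iff, Set.mem_ofPred_eq] at hv1
  by_cases hv3 : ‖v‖ = 1
  · exact hin v hv3
  · apply hout
    by_contra hv4
    exact hv2 ⟨lt_of_le_of_ne hv1.1 (Ne.symm hv3), lt_of_le_of_ne hv1.2 hv4⟩

end MaxTerm
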