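import Pool.Agent.MaxTerm.LowerB

/-! The partial theta series has `β_f ≥ 1 / thetaMax q` (task T2, part C). -/

open Filter Topology

namespace MaxTerm

/-- coefficients of an everywhere convergent power series -/
theorem coeff_of_hasSum {f : ℂ → ℂ} {a : ℕ → ℂ} (h : ∀ z, HasSum (fun n => a n * z ^ n) (f z))
    (n : ℕ) : coeff f n = a n := by
  have h1 : HasFPowerSeriesAt f (FormalMultilinearSeries.ofScalars ℂ a) 0 := by
    rw [hasFPowerSeriesAt_iff]
    refine Eventually.of_forall fun z => ?_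
    rw [zero_add]
    simpa [FormalMultilinearSeries.coeff_ofScalars, mul_comm] using h z
  have h2 := h1.analyticAt.hasFPowerSeriesAt
  have h3 := h1.eq_formalMultilinearSeries h2
  have h4 := congrArg (fun p => FormalMultilinearSeries.coeff p n) h3
  simp only [FormalMultilinearSeries.coeff_ofScalars] at h4
  rw [coeff, h4]

/-- the partial theta series -/
noncomputable def pth (q z : ℂ) : ℂ := ∑' n : ℕ, q ^ (n * (n - 1) / 2) * z ^ n

theorem pth_hasSum {q : ℂ} (hq : ‖q‖ < 1) (z : ℂ) :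
    HasSum (fun n : ℕ => q ^ (n * (n - 1) / 2) * z ^ n) (pth q z) := by
  apply Summable.hasSum
  apply Summable.of_norm
  refine (summable_nat (norm_nonneg q) hq (norm_nonneg z)).congr fun n => ?_
  rw [norm_mul, norm_pow, norm_pow]

theorem pth_differentiable {q : ℂ} (hq : ‖q‖ < 1) : Differentiable ℂ (pth q) := by
  intro z
  have hd : DifferentiableOn ℂ (fun v : ℂ => ∑' n : ℕ, q ^ (n * (n - 1) / 2) * v ^ n)
      (Metric.ball 0 (‖z‖ + 1)) := by
    apply Complex.differentiableOn_tsum_of_summable_norm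
      (summable_nat (norm_nonneg q) hq (by positivity : 0 ≤ ‖z‖ + 1))
    · intro n
      exact ((differentiable_id.pow n).const_mul _).differentiableOn
    · exact Metric.isOpen_ball
    · intro n v hv
      rw [norm_mul, norm_pow, norm_pow]
      apply mul_le_mul_of_nonneg_left _ (by positivity)
      exact pow_le_pow_left₀ (norm_nonneg _) (mem_ball_zero_iff.1 hv).le n
  exact (hd z (by simp)).differentiableAt (Metric.isOpen_ball.mem_nhds (by simp))

theorem pth_coeff {q : ℂ} (hq : ‖q‖ < 1) (n : ℕ) : coeff (pth q) n = q ^ (n * (n - 1) / 2) :=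
  coeff_of_hasSum (pth_hasSum hq) n

theorem pth_trans {q : ℂ} (hq : ‖q‖ < 1) (hq0 : q ≠ 0) : TransEntire (pth q) := by
  refine ⟨pth_differentiable hq, ?_⟩
  rintro ⟨P, hP⟩
  have h : ∀ z, HasSum (fun n => P.coeff n * z ^ n) (pth q z) := by
    intro z
    rw [hP z, Polynomial.eval_eq_sum_range]
    apply hasSum_sum_of_ne_finset_zero
    intro n hn
    have : P.natDegree < n := by simpa using hn
    rw [Polynomial.coeff_eq_zero_of_natDegree_lt this, zero_mul]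
  have h1 := coeff_of_hasSum h (P.natDegree + 1)
  rw [pth_coeff hq, Polynomial.coeff_eq_zero_of_natDegree_lt (Nat.lt_succ_self _)] at h1
  exact pow_ne_zero _ hq0 h1

theorem alg_aux {a b c d x y : ℂ} (hb : b ≠ 0) (hc : c ≠ 0) (hd : d ≠ 0) (hx : x ≠ 0) :
    a * (y / d) = b * (x / c) * (a / b / (d / c) * (y / x)) := by
  field_simp

theorem pth_term {q w : ℂ} (hq0 : q ≠ 0) (hw : w ≠ 0) (n j : ℕ) :
    q ^ (j * (j - 1) / 2) * (w / q ^ n) ^ j = q ^ (n * (n - 1) / 2) * (w / q ^ n) ^ n *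
      (q ^ (((j : ℤ) - n) * ((j : ℤ) - n - 1) / 2).toNat * w ^ ((j : ℤ) - n)) := by
  have h := ex_add n ((j : ℤ) - n)
  have e : (n : ℤ) + ((j : ℤ) - n) = j := by ring
  rw [e, ex_nat] at h
  have h' : (((((j : ℤ) - n) * ((j : ℤ) - n - 1) / 2).toNat : ℕ) : ℤ)
    = ((j * (j - 1) / 2 : ℕ) : ℤ) - (n * (n - 1) / 2 : ℕ) - n * (j - n) := by
    rw [h]; ring
  have h5 : q ^ ((n : ℤ) * (j - n)) = (q ^ n) ^ j / (q ^ n) ^ n := by
    rw [zpow_mul, zpow_natCast, zpow_sub₀ (pow_ne_zero n hq0), zpow_natCast, zpow_natCast]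
  rw [← zpow_natCast q ((((j : ℤ) - n) * ((j : ℤ) - n - 1) / 2).toNat), h', zpow_sub₀ hq0,
    zpow_sub₀ hq0, h5, zpow_natCast, zpow_natCast, div_pow, div_pow, zpow_sub₀ hw, zpow_natCast,
    zpow_natCast]
  exact alg_aux (pow_ne_zero _ hq0) (pow_ne_zero _ (pow_ne_zero _ hq0))
    (pow_ne_zero _ (pow_ne_zero _ hq0)) (pow_ne_zero _ hw)

/-- splitting at index `n` -/
theorem pth_split {q w : ℂ} (hq : ‖q‖ < 1) (hq0 : q ≠ 0) (hw : w ≠ 0) (n : ℕ) (g : ℤ → ℂ)
    (hg : ∀ i, g i = q ^ (i * (i - 1) / 2).toNat * w ^ i) :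
    pth q (w / q ^ n) = q ^ (n * (n - 1) / 2) * (w / q ^ n) ^ n *
      (theta q w - ∑' k : ℕ, g (-((k : ℤ) + 1) - n)) := by
  have hgs : Summable g := (summable_theta hq hw).congr fun i => (hg i).symm
  have hgs' : Summable (fun j : ℤ => g (j - n)) := (Equiv.subRight (n : ℤ)).summable_iff.2 hgs
  have h0 : theta q w = ∑' j : ℤ, g j := tsum_congr fun i => (hg i).symm
  have h1 : ∑' j : ℤ, g j = ∑' j : ℤ, g (j - n) := ((Equiv.subRight (n : ℤ)).tsum_eq g).symm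
  have h2 : ∑' j : ℤ, g (j - n) = ∑' j : ℕ, g ((j : ℤ) - n) + ∑' k : ℕ, g (-((k : ℤ) + 1) - n) := by
    apply tsum_of_nat_of_neg_add_one (f := fun j : ℤ => g (j - n))
    · exact hgs'.comp_injective (i := fun k : ℕ => (k : ℤ)) Nat.cast_injective
    · exact hgs'.comp_injective (i := fun k : ℕ => -((k : ℤ) + 1)) (fun a b h => by
        simp only [neg_inj, add_left_inj, Nat.cast_inj] at h
        exact h)
  have h3 : theta q w - ∑' k : ℕ, g (-((k : ℤ) + 1) - n) = ∑' j : ℕ, g ((j : ℤ) - n) := by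
    rw [h0, h1, h2]; ring
  rw [h3, ← tsum_mul_left, pth]
  refine tsum_congr fun j => ?_
  rw [hg]
  exact pth_term hq0 hw n j

theorem tail_bound {q w : ℂ} (hq : ‖q‖ < 1) (hw : 1 ≤ ‖w‖) (n : ℕ) (g : ℤ → ℂ)
    (hg : ∀ i, g i = q ^ (i * (i - 1) / 2).toNat * w ^ i) :
    ‖∑' k : ℕ, g (-((k : ℤ) + 1) - n)‖ ≤ ‖q‖ ^ (n + 1) / (1 - ‖q‖) := by
  have hb : ∀ k : ℕ, ‖g (-((k : ℤ) + 1) - n)‖ ≤ ‖q‖ ^ (n + 1) * ‖q‖ ^ k := by
    intro k
    have e : -((k : ℤ) + 1) - n = -(((k + n : ℕ) : ℤ) + 1) := by push_cast; ring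
    rw [hg, e, norm_mul, norm_pow, norm_zpow, ex_neg]
    have h1 : ‖w‖ ^ (-(((k + n : ℕ) : ℤ) + 1)) ≤ 1 := by
      rw [zpow_neg]
      have : (((k + n : ℕ) : ℤ) + 1) = ((k + n + 1 : ℕ) : ℤ) := by push_cast; ring
      rw [this, zpow_natCast]
      exact inv_le_one_of_one_le₀ (one_le_pow₀ hw)
    have h2 : ‖q‖ ^ ((k + n) * (k + n - 1) / 2 + (2 * (k + n) + 1)) ≤ ‖q‖ ^ (n + 1) * ‖q‖ ^ k := by
      rw [← pow_add]
      apply pow_le_pow_of_le_one (norm_nonneg _) hq.le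
      omega
    calc _ ≤ (‖q‖ ^ (n + 1) * ‖q‖ ^ k) * 1 := by
            apply mul_le_mul h2 h1
            · exact zpow_nonneg (norm_nonneg _) _
            · positivity
      _ = _ := mul_one _
  have hs : HasSum (fun k : ℕ => ‖q‖ ^ (n + 1) * ‖q‖ ^ k) (‖q‖ ^ (n + 1) * (1 - ‖q‖)⁻¹) :=
    (hasSum_geometric_of_lt_one (norm_nonneg q) hq).mul_left _
  rw [div_eq_mul_inv]
  exact tsum_of_norm_bounded hs hb

theorem pth_bound {q z : ℂ} (hq : ‖q‖ < 1) (hq0 : q ≠ 0) {n : ℕ} (h1 : 1 ≤ ‖z‖ * ‖q‖ ^ n)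
    (h2 : ‖z‖ * ‖q‖ ^ n ≤ ‖q‖⁻¹) :
    ‖pth q z‖ ≤ ‖q‖ ^ ((n + 1) * (n + 1 - 1) / 2) * ‖z‖ ^ (n + 1)
      * (thetaMax q + ‖q‖ ^ (n + 1) / (1 - ‖q‖)) := by
  have hqn := pow_ne_zero n hq0
  set w := z * q ^ n with hw
  have hwn : ‖w‖ = ‖z‖ * ‖q‖ ^ n := by rw [hw, norm_mul, norm_pow]
  have hw1 : 1 ≤ ‖w‖ := by rw [hwn]; exact h1
  have hw2 : ‖w‖ ≤ ‖q‖⁻¹ := by rw [hwn]; exact h2
  have hwp : 0 < ‖w‖ := by linarith
  have hw0 : w ≠ 0 := norm_pos_iff.1 hwp
  have hz : z = w / q ^ n := by rw [hw, mul_div_cancel_right₀ _ hqn]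
  have hsp := pth_split hq hq0 hw0 n _ (fun i => rfl)
  have htail := tail_bound hq hw1 n _ (fun i => rfl)
  rw [← hz] at hsp
  have hK : ‖theta q w‖ ≤ thetaMax q * ‖w‖ := by
    have := theta_annulus hq hq0 hw1 hw2
    rw [norm_mul, norm_inv, inv_mul_le_iff₀ hwp] at this
    linarith
  set T := ‖q‖ ^ (n + 1) / (1 - ‖q‖) with hT
  have hT0 : 0 ≤ T := div_nonneg (by positivity) (by linarith)
  rw [hsp, norm_mul, norm_mul, norm_pow, norm_pow, tri_succ]
  have h3 : ‖theta q w - ∑' k : ℕ, q ^ ((-((k : ℤ) + 1) - n) * (-((k : ℤ) + 1) - n - 1) / 2).toNat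
      * w ^ (-((k : ℤ) + 1) - n)‖ ≤ ‖w‖ * (thetaMax q + T) := by
    refine le_trans (norm_sub_le _ _) ?_
    have : T ≤ ‖w‖ * T := le_mul_of_one_le_left hT0 hw1
    linarith
  calc _ ≤ ‖q‖ ^ (n * (n - 1) / 2) * ‖z‖ ^ n * (‖w‖ * (thetaMax q + T)) := by
        apply mul_le_mul_of_nonneg_left h3
        positivity
    _ = _ := by rw [hwn]; ring

/-- Cauchy bounds -/
theorem cauchy_le {f : ℂ → ℂ} (hf : Differentiable ℂ f) {r : ℝ} (hr : 0 < r) (n : ℕ) :
    ‖coeff f n‖ * r ^ n ≤ maxMod f r := by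
  have hbdd : BddAbove ((fun z : ℂ => ‖f z‖) '' Metric.sphere (0 : ℂ) r) :=
    ((isCompact_sphere (0 : ℂ) r).image (hf.continuous.norm)).bddAbove
  have h := Complex.norm_iteratedDeriv_le_of_forall_mem_sphere_norm_le (c := 0) (R := r)
    (C := maxMod f r) n hr hf.diffContOnCl (fun z hz => le_csSup hbdd ⟨z, hz, rfl⟩)
  rw [coeff, norm_div, Complex.norm_natCast]
  have hn : (0 : ℝ) < n.factorial := by exact_mod_cast n.factorial_pos
  rw [div_mul_eq_mul_div, div_le_iff₀ hn]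
  have hrn := pow_pos hr n
  rw [le_div_iff₀ hrn] at h
  linarith

theorem maxTerm_le_maxMod {f : ℂ → ℂ} (hf : Differentiable ℂ f) {r : ℝ} (hr : 0 < r) :
    maxTerm f r ≤ maxMod f r := ciSup_le fun n => cauchy_le hf hr n

theorem le_maxTerm {f : ℂ → ℂ} (hf : Differentiable ℂ f) {r : ℝ} (hr : 0 < r) (n : ℕ) :
    ‖coeff f n‖ * r ^ n ≤ maxTerm f r := by
  apply le_ciSup (f := fun n : ℕ => ‖coeff f n‖ * r ^ n)
  refine ⟨maxMod f r, ?_⟩
  rintro _ ⟨k, rfl⟩
  exact cauchy_le hf hr k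

theorem exists_extremal' {q : ℂ} (hq : ‖q‖ < 1) (hq0 : q ≠ 0) :
    1 / thetaMax q ≤ betaOf (pth q) := by
  have hρ : 0 < ‖q‖ := norm_pos_iff.2 hq0
  have hd := pth_differentiable hq
  have hK0 : 0 < thetaMax q := by
    rcases (thetaMax_nonneg q).eq_or_lt with h | h
    · have := two_le_thetaMax_sq hq
      rw [← h] at this
      norm_num at this
    · exact h
  apply le_of_forall_lt
  intro c hc
  -- choose n0
  have htend : Tendsto (fun n : ℕ => 1 / (thetaMax q + ‖q‖ ^ (n + 1) / (1 - ‖q‖))) atTop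
      (𝓝 (1 / (thetaMax q + 0 / (1 - ‖q‖)))) := by
    apply Tendsto.div tendsto_const_nhds
    · apply Tendsto.add tendsto_const_nhds
      apply Tendsto.div_const
      exact (tendsto_pow_atTop_nhds_zero_of_lt_one hρ.le hq).comp (tendsto_add_atTop_nat 1)
    · rw [zero_div, add_zero]; exact hK0.ne'
  rw [zero_div, add_zero] at htend
  obtain ⟨c', hc1, hc2⟩ := exists_between hc
  obtain ⟨n0, hn0⟩ := eventually_atTop.1 (htend.eventually (lt_mem_nhds hc2))
  refine lt_of_lt_of_le hc1 ?_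
  have hcob : IsCoboundedUnder (· ≥ ·) atTop (fun r : ℝ => maxTerm (pth q) r / maxMod (pth q) r) := by
    apply IsBoundedUnder.isCoboundedUnder_ge
    refine isBoundedUnder_of_eventually_le (a := 1) ?_
    filter_upwards [eventually_gt_atTop 0] with r hr
    have h1 := maxTerm_le_maxMod hd hr
    have h2 := le_maxTerm hd hr 0
    have h3 : 0 ≤ maxTerm (pth q) r := le_trans (by positivity) h2
    exact div_le_one_of_le₀ h1 (le_trans h3 h1)
  apply le_liminf_of_le hcob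
  have hy : 1 < ‖q‖⁻¹ := (one_lt_inv₀ hρ).2 hq
  filter_upwards [eventually_ge_atTop ((‖q‖⁻¹) ^ n0)] with r hr
  have hr1 : 1 ≤ r := le_trans (one_le_pow₀ hy.le) hr
  have hr0 : 0 < r := by linarith
  obtain ⟨n, hn1, hn2⟩ := exists_nat_pow_near hr1 hy
  have hnn : n0 ≤ n := by
    have : (‖q‖⁻¹) ^ n0 < (‖q‖⁻¹) ^ (n + 1) := lt_of_le_of_lt hr hn2
    have := (pow_lt_pow_iff_right₀ hy).1 this
    omega
  have hc3 := hn0 n hnn
  set T := ‖q‖ ^ (n + 1) / (1 - ‖q‖) with hT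
  have hT0 : 0 ≤ T := div_nonneg (by positivity) (by linarith)
  -- bounds
  have hqn : 0 < ‖q‖ ^ n := by positivity
  have hA : 1 ≤ r * ‖q‖ ^ n := by
    rw [inv_pow, inv_le_iff_one_le_mul₀ hqn] at hn1
    exact hn1
  have hB : r * ‖q‖ ^ n ≤ ‖q‖⁻¹ := by
    have h4 : r * ‖q‖ ^ n ≤ (‖q‖⁻¹) ^ (n + 1) * ‖q‖ ^ n :=
      mul_le_mul_of_nonneg_right hn2.le hqn.le
    refine le_trans h4 (le_of_eq ?_)
    rw [pow_succ, mul_right_comm, ← mul_pow, inv_mul_cancel₀ hρ.ne', one_pow, one_mul]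
  set P := ‖q‖ ^ ((n + 1) * (n + 1 - 1) / 2) * r ^ (n + 1) with hP
  have hPpos : 0 < P := by positivity
  have hM : maxMod (pth q) r ≤ P * (thetaMax q + T) := by
    apply csSup_le
    · exact ⟨_, (r : ℂ), by simp [abs_of_pos hr0], rfl⟩
    · rintro _ ⟨z, hz, rfl⟩
      have hz' : ‖z‖ = r := mem_sphere_zero_iff_norm.1 hz
      have := pth_bound (z := z) hq hq0 (n := n) (by rw [hz']; exact hA) (by rw [hz']; exact hB)
      rw [hz'] at this
      exact this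
  have hm : P ≤ maxTerm (pth q) r := by
    have := le_maxTerm hd hr0 (n + 1)
    rw [pth_coeff hq, norm_pow] at this
    exact this
  have hMpos : 0 < maxMod (pth q) r := lt_of_lt_of_le hPpos (le_trans hm (maxTerm_le_maxMod hd hr0))
  rw [le_div_iff₀ hMpos]
  have hKT : 0 < thetaMax q + T := by linarith
  have h5 : c' * maxMod (pth q) r ≤ P := by
    rcases le_or_gt c' 0 with h | h
    · exact le_trans (mul_nonpos_of_nonpos_of_nonneg h hMpos.le) hPpos.le
    · have h6 : c' * (thetaMax q + T) ≤ 1 := by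
        have := hc3.le
        rwa [le_div_iff₀ hKT] at this
      calc c' * maxMod (pth q) r ≤ c' * (P * (thetaMax q + T)) :=
            mul_le_mul_of_nonneg_left hM h.le
        _ = P * (c' * (thetaMax q + T)) := by ring
        _ ≤ P * 1 := mul_le_mul_of_nonneg_left h6 hPpos.le
        _ = P := mul_one _
  linarith

end MaxTerm
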