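import Pool.Agent.MaxTerm.PB.Mismatch
import Pool.Agent.MaxTerm.Inc.Main

/-!
# MP_4255df, Part B: if `K² ≤ 2.92127` the gaps of a chain are eventually constant
-/

namespace MaxTerm

/-- Part B. -/
theorem mismatch {K : ℝ} (C : Chain K) (hK : K ^ 2 ≤ 2.92127) : ∃ J k, ∀ j ≥ J, C.k j = k :=
  PB.mismatch_of_strict (fun C h => Inc.no_increasing C h) C hK

end MaxTerm
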