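import Pool.Agent.MaxTerm.Reduce
import Pool.Agent.MaxTerm.Lower
import Pool.Agent.MaxTerm.PartB
import Pool.Agent.MaxTerm.PartA.Final

/-!
# MP_4255df : the value of `β`
-/

open Filter Topology ComplexConjugate

namespace MaxTerm

theorem Kstar_pos : 0 < Kstar := by
  have h := PA.Kstar_sq_ge
  have h0 := PA.Kstar_nonneg
  rcases h0.eq_or_lt with h1 | h1
  · rw [← h1] at h; norm_num at h
  · exact h1

/-- no chain with `K < K*` -/
theorem chain_ge {K : ℝ} (hK0 : 0 < K) (C : Chain K) : Kstar ≤ K := by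
  by_contra hlt
  push_neg at hlt
  have hK : K ^ 2 ≤ 2.92127 := by
    have h1 : K ^ 2 ≤ Kstar ^ 2 := pow_le_pow_left₀ hK0.le hlt.le 2
    have h2 := PA.Kstar_sq_le
    linarith
  obtain ⟨J, k, hJ⟩ := mismatch C hK
  obtain ⟨C', hC'⟩ := C.exists_drop J
  obtain ⟨C'', hC''⟩ := C'.exists_project k (fun j => by rw [hC' j]; exact hJ _ (by omega))
  exact absurd (PA.apCore C'' hC'') (not_le.mpr hlt)

theorem betaOf_le {f : ℂ → ℂ} (hf : TransEntire f) : betaOf f ≤ 1 / Kstar := by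
  by_contra hlt
  push_neg at hlt
  have hpos : 0 < 1 / Kstar := one_div_pos.mpr Kstar_pos
  obtain ⟨c, hc1, hc2⟩ := exists_between hlt
  have hc : 0 < c := hpos.trans hc1
  have h1 : 1 / (1 / c) < betaOf f := by rwa [one_div_one_div]
  obtain ⟨C⟩ := exists_chain hf (one_div_pos.mpr hc) h1
  have h2 := chain_ge (one_div_pos.mpr hc) C
  have h3 : 1 / c < Kstar := by
    rw [div_lt_iff₀ hc]
    rw [div_lt_iff₀ Kstar_pos] at hc1
    linarith
  linarith

/-- the extremal function -/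
theorem exists_extremal_fun : ∃ q : ℂ, ‖q‖ < 1 ∧ q ≠ 0 ∧ thetaMax q = Kstar ∧
    TransEntire (fun z => ∑' n : ℕ, q ^ (n * (n - 1) / 2) * z ^ n) ∧
    betaOf (fun z => ∑' n : ℕ, q ^ (n * (n - 1) / 2) * z ^ n) = 1 / Kstar := by
  obtain ⟨q, hq, hK, hn⟩ := PA.exists_near_min
  have hq0 : q ≠ 0 := by
    rintro rfl
    have := hn.im
    norm_num [PA.qc, abs_le] at this
  obtain ⟨h1, h2⟩ := exists_extremal hq hq0
  refine ⟨q, hq, hq0, hK, h1, le_antisymm (betaOf_le h1) ?_⟩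
  rwa [hK] at h2

end MaxTerm
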