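import Pool.Agent.MaxTerm.QHatCert

/-!
# Upper bound for `thetaMax` at the rational point `q = -0.1912057094 + 0.2048974310 i`
-/

open Filter Topology

namespace MaxTerm

namespace QHat

/-- pairs of terms with the same coefficient -/
noncomputable def em (z : ℂ) (m : ℕ) : ℂ := z ^ (m + 1) + (z⁻¹) ^ m

theorem norm_em_le {z : ℂ} (hz : ‖z‖ = 1) (m : ℕ) : ‖em z m‖ ≤ 2 := by
  refine (norm_add_le _ _).trans ?_
  rw [norm_pow, norm_pow, norm_inv, hz, inv_one, one_pow, one_pow]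
  norm_num

theorem geom_tail {ρ : ℝ} (h0 : 0 ≤ ρ) (h1 : ρ < 1) {g : ℕ → ℂ}
    (hg : ∀ n, ‖g n‖ ≤ ρ ^ 21 * ρ ^ n) : ‖∑' n, g n‖ ≤ ρ ^ 21 / (1 - ρ) := by
  have hgeo : HasSum (fun n : ℕ => ρ ^ 21 * ρ ^ n) (ρ ^ 21 * (1 - ρ)⁻¹) :=
    (hasSum_geometric_of_lt_one h0 h1).mul_left _
  rw [div_eq_mul_inv]
  exact tsum_of_norm_bounded hgeo hg

/-- term of the theta series -/
noncomputable def tt (q z : ℂ) (n : ℤ) : ℂ := q ^ (n * (n - 1) / 2).toNat * z ^ n

theorem tt_nat (q z : ℂ) (n : ℕ) : tt q z n = q ^ (n * (n - 1) / 2) * z ^ n := by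
  rw [tt, ex_nat, zpow_natCast]

theorem tt_neg (q z : ℂ) (n : ℕ) :
    tt q z (-((n : ℤ) + 1)) = q ^ (n * (n - 1) / 2 + (2 * n + 1)) * (z⁻¹) ^ (n + 1) := by
  rw [tt, ex_neg, zpow_neg, inv_pow]
  congr 2

theorem sum_nat (q z : ℂ) : ∑ i ∈ Finset.range 7, tt q z (i : ℕ) =
    1 + z + q * z ^ 2 + q ^ 3 * z ^ 3 + q ^ 6 * z ^ 4 + q ^ 10 * z ^ 5 + q ^ 15 * z ^ 6 := by
  rw [Finset.sum_range_succ, Finset.sum_range_succ, Finset.sum_range_succ, Finset.sum_range_succ,
    Finset.sum_range_succ, Finset.sum_range_succ, Finset.sum_range_succ, Finset.sum_range_zero,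
    tt_nat, tt_nat, tt_nat, tt_nat, tt_nat, tt_nat, tt_nat]
  norm_num

theorem sum_neg (q z : ℂ) : ∑ i ∈ Finset.range 5, tt q z (-(((i : ℕ) : ℤ) + 1)) =
    q * (z⁻¹) + q ^ 3 * (z⁻¹) ^ 2 + q ^ 6 * (z⁻¹) ^ 3 + q ^ 10 * (z⁻¹) ^ 4 +
      q ^ 15 * (z⁻¹) ^ 5 := by
  rw [Finset.sum_range_succ, Finset.sum_range_succ, Finset.sum_range_succ, Finset.sum_range_succ,
    Finset.sum_range_succ, Finset.sum_range_zero,
    tt_neg, tt_neg, tt_neg, tt_neg, tt_neg]
  norm_num

theorem theta_split {q z : ℂ} (hq : ‖q‖ < 1) (hz : ‖z‖ = 1) :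
    ‖theta q z - (em z 0 + q * em z 1 + q ^ 3 * em z 2 + q ^ 6 * em z 3 + q ^ 10 * em z 4 +
      q ^ 15 * em z 5)‖ ≤ 2 * (‖q‖ ^ 21 / (1 - ‖q‖)) := by
  have hz0 : z ≠ 0 := by
    intro h; rw [h, norm_zero] at hz; exact zero_ne_one hz
  have hn : ∀ n : ℤ, ‖tt q z n‖ = ‖q‖ ^ (n * (n - 1) / 2).toNat := fun n => norm_term hz n
  have hs : Summable (tt q z) := by
    apply Summable.of_norm
    exact (summable_int_one (norm_nonneg q) hq).congr fun n => (hn n).symm
  have hs1 : Summable (fun n : ℕ => tt q z n) := hs.comp_injective Nat.cast_injective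
  have hs2 : Summable (fun n : ℕ => tt q z (-((n : ℤ) + 1))) := by
    apply hs.comp_injective
    intro a b hab
    have : (a : ℤ) = b := by
      have h2 : -((a : ℤ) + 1) = -((b : ℤ) + 1) := hab
      omega
    exact_mod_cast this
  have e0 : theta q z = ∑' n : ℕ, tt q z n + ∑' n : ℕ, tt q z (-((n : ℤ) + 1)) :=
    tsum_of_nat_of_neg_add_one hs1 hs2
  have e1 := hs1.sum_add_tsum_nat_add 7
  have e2 := hs2.sum_add_tsum_nat_add 5
  have t1 : ‖∑' n : ℕ, tt q z ((n + 7 : ℕ) : ℤ)‖ ≤ ‖q‖ ^ 21 / (1 - ‖q‖) := by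
    apply geom_tail (norm_nonneg q) hq
    intro n
    rw [hn, ex_nat, ← pow_add]
    apply pow_le_pow_of_le_one (norm_nonneg q) hq.le
    have h3 : (n + 7) * (n + 7 - 1) = (21 + n) * 2 + (n * n + 11 * n) := by
      have : n + 7 - 1 = n + 6 := by omega
      rw [this]; ring
    rw [h3]
    omega
  have t2 : ‖∑' n : ℕ, tt q z (-(((n + 5 : ℕ) : ℤ) + 1))‖ ≤ ‖q‖ ^ 21 / (1 - ‖q‖) := by
    apply geom_tail (norm_nonneg q) hq
    intro n
    rw [hn, ex_neg, ← pow_add]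
    apply pow_le_pow_of_le_one (norm_nonneg q) hq.le
    have h3 : (n + 5) * (n + 5 - 1) = (10) * 2 + (n * n + 9 * n) := by
      have : n + 5 - 1 = n + 4 := by omega
      rw [this]; ring
    rw [h3]
    omega
  have e3 : theta q z - (em z 0 + q * em z 1 + q ^ 3 * em z 2 + q ^ 6 * em z 3 + q ^ 10 * em z 4 +
      q ^ 15 * em z 5) =
        (∑' n : ℕ, tt q z ((n + 7 : ℕ) : ℤ)) + ∑' n : ℕ, tt q z (-(((n + 5 : ℕ) : ℤ) + 1)) := by
    rw [e0, ← e1, ← e2, sum_nat, sum_neg]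
    simp only [em]
    ring
  rw [e3, two_mul]
  exact (norm_add_le _ _).trans (add_le_add t1 t2)

/-- rounded coefficients -/
noncomputable def p1 : ℂ := ⟨-956028547 / 5000000000, 204897431 / 1000000000⟩
/-- rounded coefficients -/
noncomputable def p2 : ℂ := ⟨341834693 / 20000000000, 34676796499 / 2500000000000⟩
/-- rounded coefficients -/
noncomputable def p3 : ℂ := ⟨623315993 / 6250000000000, 23707464171 / 50000000000000⟩
/-- rounded coefficients -/
noncomputable def p4 : ℂ := ⟨-25308513 / 25000000000000, -4394289 / 1562500000000⟩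
/-- rounded coefficients -/
noncomputable def p5 : ℂ := ⟨-249217 / 50000000000000, -68199 / 50000000000000⟩

theorem norm_le_of {z : ℂ} {ε : ℝ} (h1 : |z.re| ≤ ε) (h2 : |z.im| ≤ ε) : ‖z‖ ≤ 2 * ε :=
  (Complex.norm_le_abs_re_add_abs_im z).trans (by linarith)

theorem q1 : qh = p1 := by
  apply Complex.ext <;> simp only [qh, p1] <;> norm_num

theorem mk_mul (a b c d : ℝ) : (⟨a, b⟩ : ℂ) * ⟨c, d⟩ = ⟨a * c - b * d, a * d + b * c⟩ := by
  apply Complex.ext
  · rw [Complex.mul_re]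
  · rw [Complex.mul_im]

theorem mk_eq {a b c d : ℝ} (h1 : a = c) (h2 : b = d) : (⟨a, b⟩ : ℂ) = ⟨c, d⟩ := by
  rw [h1, h2]

theorem x1 : qh ^ 1 = ⟨-956028547 / 5000000000, 204897431 / 1000000000⟩ := by
  rw [pow_one]
  unfold qh
  apply mk_eq <;> norm_num

theorem x2 : qh ^ 2 = ⟨-4236979627533213 / 781250000000000000, -195887793242962757 / 2500000000000000000⟩ := by
  have h : qh ^ 2 = qh ^ 1 * qh ^ 1 := by ring
  rw [h, x1, mk_mul]
  apply mk_eq <;> norm_num

theorem x3 : qh ^ 3 = ⟨1068233415625222554547535851 / 62500000000000000000000000000, 173383982495011827175811231 / 12500000000000000000000000000⟩ := by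
  have h : qh ^ 3 = qh ^ 2 * qh ^ 1 := by ring
  rw [h, x2, x1, mk_mul]
  apply mk_eq <;> norm_num

theorem x6 : qh ^ 6 = ⟨12174140487892665055680101717462391051349088827715943 / 122070312500000000000000000000000000000000000000000000000, 185214563835350281062563169938726573915476702980942581 / 390625000000000000000000000000000000000000000000000000000⟩ := by
  have h : qh ^ 6 = qh ^ 3 * qh ^ 3 := by ring
  rw [h, x3, mk_mul]
  apply mk_eq <;> norm_num

theorem x9 : qh ^ 9 = ⟨-594753788535314274600593088059628354568579042210740422484980412951775880859820387 / 122070312500000000000000000000000000000000000000000000000000000000000000000000000000000, 231625201529285596531662441932099663144938276783677651763858198641307672584464759 / 24414062500000000000000000000000000000000000000000000000000000000000000000000000000000⟩ := by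
  have h : qh ^ 9 = qh ^ 6 * qh ^ 3 := by ring
  rw [h, x6, x3, mk_mul]
  apply mk_eq <;> norm_num

theorem x10 : qh ^ 10 = ⟨-19308863075907358929101237420654934068152543924505515798771785475923266824393431108242673 / 19073486328125000000000000000000000000000000000000000000000000000000000000000000000000000000000, -34330382821502823444348355867459173828150375022760445190720046346022475327681684673720097 / 12207031250000000000000000000000000000000000000000000000000000000000000000000000000000000000000⟩ := by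
  have h : qh ^ 10 = qh ^ 9 * qh ^ 1 := by ring
  rw [h, x9, x1, mk_mul]
  apply mk_eq <;> norm_num

theorem x15 : qh ^ 15 = ⟨-1188358875700408666376780463314606470784705570993792079365777754986205653030854736539947819894798394957003553225296447585098494906353531 / 238418579101562500000000000000000000000000000000000000000000000000000000000000000000000000000000000000000000000000000000000000000000000000000000, -13007931925945361345667216015310236091468765850807420935739822910173343966760444021608824409066038682988144090691784672099957856991011 / 9536743164062500000000000000000000000000000000000000000000000000000000000000000000000000000000000000000000000000000000000000000000000000000000⟩ := by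
  have h : qh ^ 15 = qh ^ 9 * qh ^ 6 := by ring
  rw [h, x9, x6, mk_mul]
  apply mk_eq <;> norm_num

theorem b3 : ‖qh ^ 3 - p2‖ ≤ 2 * (1 / 10 ^ 14) := by
  rw [x3, p2]
  apply norm_le_of
  · rw [Complex.sub_re]
    norm_num [abs_le]
  · rw [Complex.sub_im]
    norm_num [abs_le]

theorem b6 : ‖qh ^ 6 - p3‖ ≤ 2 * (1 / 10 ^ 14) := by
  rw [x6, p3]
  apply norm_le_of
  · rw [Complex.sub_re]
    norm_num [abs_le]
  · rw [Complex.sub_im]
    norm_num [abs_le]

theorem b10 : ‖qh ^ 10 - p4‖ ≤ 2 * (1 / 10 ^ 14) := by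
  rw [x10, p4]
  apply norm_le_of
  · rw [Complex.sub_re]
    norm_num [abs_le]
  · rw [Complex.sub_im]
    norm_num [abs_le]

theorem b15 : ‖qh ^ 15 - p5‖ ≤ 2 * (1 / 10 ^ 14) := by
  rw [x15, p5]
  apply norm_le_of
  · rw [Complex.sub_re]
    norm_num [abs_le]
  · rw [Complex.sub_im]
    norm_num [abs_le]

theorem norm_qh : ‖qh‖ ≤ 2803 / 10000 := by
  have h : ‖qh‖ ^ 2 ≤ (2803 / 10000) ^ 2 := by
    rw [← Complex.normSq_eq_norm_sq, Complex.normSq_apply]
    unfold qh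
    norm_num
  exact (pow_le_pow_iff_left₀ (norm_nonneg _) (by norm_num) (by norm_num)).1 h

theorem em_rec {z : ℂ} (hz : z ≠ 0) (m : ℕ) :
    em z (m + 2) = (z + z⁻¹) * em z (m + 1) - em z m := by
  have h : z * z⁻¹ = 1 := mul_inv_cancel₀ hz
  simp only [em]
  linear_combination (-(z⁻¹) ^ m - z ^ (m + 1)) * h

theorem add_inv {z : ℂ} (hz : ‖z‖ = 1) : z + z⁻¹ = ((2 * z.re : ℝ) : ℂ) := by
  have h1 : z⁻¹ = (starRingEnd ℂ) z := by
    rw [Complex.inv_def, Complex.normSq_eq_norm_sq, hz]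
    simp
  rw [h1, Complex.add_conj]

theorem em_vals {z : ℂ} (hz : ‖z‖ = 1) :
    em z 0 = (1 + z) * 1 ∧
    em z 1 = (1 + z) * ((2 * z.re - 1 : ℝ) : ℂ) ∧
    em z 2 = (1 + z) * (((2 * z.re) ^ 2 - 2 * z.re - 1 : ℝ) : ℂ) ∧
    em z 3 = (1 + z) * (((2 * z.re) ^ 3 - (2 * z.re) ^ 2 - 2 * (2 * z.re) + 1 : ℝ) : ℂ) ∧
    em z 4 = (1 + z) * (((2 * z.re) ^ 4 - (2 * z.re) ^ 3 - 3 * (2 * z.re) ^ 2 + 2 * (2 * z.re)
      + 1 : ℝ) : ℂ) ∧
    em z 5 = (1 + z) * (((2 * z.re) ^ 5 - (2 * z.re) ^ 4 - 4 * (2 * z.re) ^ 3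
      + 3 * (2 * z.re) ^ 2 + 3 * (2 * z.re) - 1 : ℝ) : ℂ) := by
  have hz0 : z ≠ 0 := by
    intro h; rw [h, norm_zero] at hz; exact zero_ne_one hz
  have hs := add_inv hz
  have h0 : em z 0 = (1 + z) * 1 := by simp only [em]; ring
  have h1 : em z 1 = (1 + z) * ((2 * z.re - 1 : ℝ) : ℂ) := by
    rw [Complex.ofReal_sub, ← hs, em, Complex.ofReal_one]
    have h : z * z⁻¹ = 1 := mul_inv_cancel₀ hz0
    linear_combination (-1) * h
  have h2 := em_rec hz0 0
  have h3 := em_rec hz0 1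
  have h4 := em_rec hz0 2
  have h5 := em_rec hz0 3
  rw [hs] at h2 h3 h4 h5
  norm_num only at h2 h3 h4 h5
  rw [h0, h1] at h2
  rw [h1, h2] at h3
  rw [h2, h3] at h4
  rw [h3, h4] at h5
  refine ⟨h0, h1, ?_, ?_, ?_, ?_⟩
  · rw [h2]; push_cast; ring
  · rw [h3]; push_cast; ring
  · rw [h4]; push_cast; ring
  · rw [h5]; push_cast; ring

theorem approx_eq {z : ℂ} (hz : ‖z‖ = 1) :
    em z 0 + qh * em z 1 + p2 * em z 2 + p3 * em z 3 + p4 * em z 4 + p5 * em z 5 =
      (1 + z) * ⟨Are z.re, Aim z.re⟩ := by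
  obtain ⟨h0, h1, h2, h3, h4, h5⟩ := em_vals hz
  rw [h0, h1, h2, h3, h4, h5, q1]
  have e : ((⟨Are z.re, Aim z.re⟩ : ℂ)) = 1 + p1 * ((2 * z.re - 1 : ℝ) : ℂ) +
      p2 * (((2 * z.re) ^ 2 - 2 * z.re - 1 : ℝ) : ℂ) +
      p3 * (((2 * z.re) ^ 3 - (2 * z.re) ^ 2 - 2 * (2 * z.re) + 1 : ℝ) : ℂ) +
      p4 * (((2 * z.re) ^ 4 - (2 * z.re) ^ 3 - 3 * (2 * z.re) ^ 2 + 2 * (2 * z.re) + 1 : ℝ) : ℂ) +
      p5 * (((2 * z.re) ^ 5 - (2 * z.re) ^ 4 - 4 * (2 * z.re) ^ 3
      + 3 * (2 * z.re) ^ 2 + 3 * (2 * z.re) - 1 : ℝ) : ℂ) := by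
    apply Complex.ext
    · simp only [Complex.add_re, Complex.re_mul_ofReal, Complex.one_re, p1, p2, p3, p4, p5, Are]
      ring
    · simp only [Complex.add_im, Complex.im_mul_ofReal, Complex.one_im, p1, p2, p3, p4, p5, Aim]
      ring
  rw [e]
  ring

theorem norm_approx {z : ℂ} (hz : ‖z‖ = 1) :
    ‖em z 0 + qh * em z 1 + p2 * em z 2 + p3 * em z 3 + p4 * em z 4 + p5 * em z 5‖ ^ 2
      ≤ 292126697 / 100000000 := by
  have hx : |z.re| ≤ 1 := hz ▸ Complex.abs_re_le_norm z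
  rw [approx_eq hz, norm_mul, mul_pow, ← Complex.normSq_eq_norm_sq, ← Complex.normSq_eq_norm_sq]
  have h1 : Complex.normSq (1 + z) = 2 + 2 * z.re := by
    have h2 : Complex.normSq z = 1 := by rw [Complex.normSq_eq_norm_sq, hz]; norm_num
    rw [Complex.normSq_apply] at h2
    rw [Complex.normSq_apply, Complex.add_re, Complex.add_im, Complex.one_re, Complex.one_im]
    linear_combination h2
  have h3 : Complex.normSq ⟨Are z.re, Aim z.re⟩ = Are z.re ^ 2 + Aim z.re ^ 2 := by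
    rw [Complex.normSq_apply]; ring
  rw [h1, h3]
  exact cert hx

theorem norm_theta_qh {z : ℂ} (hz : ‖z‖ = 1) : ‖theta qh z‖ ≤ 17091714280 / 10 ^ 10 + 1 / 10 ^ 10 := by
  have hq := norm_qh
  have hq1 : ‖qh‖ < 1 := lt_of_le_of_lt hq (by norm_num)
  have h1 := theta_split hq1 hz
  have h2 : 2 * (‖qh‖ ^ 21 / (1 - ‖qh‖)) ≤ 1 / 10 ^ 11 := by
    have h3 : ‖qh‖ ^ 21 ≤ (2803 / 10000) ^ 21 := pow_le_pow_left₀ (norm_nonneg _) hq 21
    have h4 : 0 < 1 - ‖qh‖ := by linarith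
    rw [← mul_div_assoc, div_le_iff₀ h4]
    have h5 : (7197 / 10000 : ℝ) ≤ 1 - ‖qh‖ := by linarith
    have h6 : 2 * ‖qh‖ ^ 21 ≤ 2 * (2803 / 10000) ^ 21 := by linarith
    refine h6.trans ?_
    calc (2 : ℝ) * (2803 / 10000) ^ 21 ≤ 1 / 10 ^ 11 * (7197 / 10000) := by norm_num
      _ ≤ _ := mul_le_mul_of_nonneg_left h5 (by norm_num)
  have h3 := norm_approx hz
  set F := em z 0 + qh * em z 1 + p2 * em z 2 + p3 * em z 3 + p4 * em z 4 + p5 * em z 5 with hF
  have h4 : ‖F‖ ≤ 17091714280 / 10 ^ 10 := by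
    have h5 : ‖F‖ ^ 2 ≤ (17091714280 / 10 ^ 10) ^ 2 := h3.trans (by norm_num)
    exact (pow_le_pow_iff_left₀ (norm_nonneg _) (by norm_num) (by norm_num)).1 h5
  have hb : ∀ (n : ℕ) (p : ℂ) (m : ℕ), ‖qh ^ n - p‖ ≤ 2 * (1 / 10 ^ 14) →
      ‖(qh ^ n - p) * em z m‖ ≤ 4 / 10 ^ 14 := by
    intro n p m h
    rw [norm_mul]
    calc ‖qh ^ n - p‖ * ‖em z m‖ ≤ (2 * (1 / 10 ^ 14)) * 2 :=
          mul_le_mul h (norm_em_le hz m) (norm_nonneg _) (by norm_num)
      _ = _ := by norm_num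
  have g2 := hb 3 p2 2 b3
  have g3 := hb 6 p3 3 b6
  have g4 := hb 10 p4 4 b10
  have g5 := hb 15 p5 5 b15
  have e : theta qh z = (theta qh z - (em z 0 + qh * em z 1 + qh ^ 3 * em z 2 + qh ^ 6 * em z 3
      + qh ^ 10 * em z 4 + qh ^ 15 * em z 5)) + F + (qh ^ 3 - p2) * em z 2
      + (qh ^ 6 - p3) * em z 3 + (qh ^ 10 - p4) * em z 4 + (qh ^ 15 - p5) * em z 5 := by
    rw [hF]; ring
  rw [e]
  refine (norm_add_le _ _).trans ?_
  refine (add_le_add_left (norm_add_le _ _) _).trans ?_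
  refine (add_le_add_left (add_le_add_left (norm_add_le _ _) _) _).trans ?_
  refine (add_le_add_left (add_le_add_left (add_le_add_left (norm_add_le _ _) _) _) _).trans ?_
  refine (add_le_add_left (add_le_add_left (add_le_add_left (add_le_add_left
    (norm_add_le _ _) _) _) _) _).trans ?_
  have : (4 : ℝ) / 10 ^ 14 * 4 + 1 / 10 ^ 11 ≤ 1 / 10 ^ 10 := by norm_num
  linarith

end QHat

/-- **Upper bound at the rational point**. -/
theorem thetaMax_qhat : thetaMax ⟨-0.1912057094, 0.2048974310⟩ ^ 2 ≤ 2.92126698 := by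
  have h : thetaMax QHat.qh ≤ 17091714280 / 10 ^ 10 + 1 / 10 ^ 10 := by
    apply csSup_le
    · exact ⟨_, 1, mem_sphere_zero_iff_norm.2 norm_one, rfl⟩
    · rintro _ ⟨z, hz, rfl⟩
      exact QHat.norm_theta_qh (mem_sphere_zero_iff_norm.1 hz)
  have h2 := pow_le_pow_left₀ (thetaMax_nonneg QHat.qh) h 2
  refine h2.trans ?_
  norm_num

end MaxTerm
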