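import Pool.Agent.MaxTerm.QHat

/-!
# Sharper upper bound for `thetaMax` at `q = -0.1912057094 + 0.2048974310 i`

Same computation as in `QHat.lean`, with the remainder `R` of `QHatCert.lean` used in full.
-/

open Filter Topology

namespace MaxTerm

namespace QHat

theorem R_lower {x : ℝ} (hx : |x| ≤ 1) : 97 / 10 ^ 10 ≤ R x := by
  have h1 := pow_bd hx 1
  have h2 := pow_bd hx 2
  rw [pow_one] at h1
  unfold R
  linarith [h1.1, h1.2, h2.1, h2.2]

theorem cert2 {x : ℝ} (hx : |x| ≤ 1) :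
    (2 + 2 * x) * (Are x ^ 2 + Aim x ^ 2) ≤ 29212669603 / 10 ^ 10 := by
  have h := cert_id x
  have h1 : 0 ≤ 1 - x := sub_nonneg.2 (abs_le.1 hx).2
  have h2 : 0 ≤ (1 - x) * (x - (55216005659 / 200000000000)) ^ 2 * Q x :=
    mul_nonneg (mul_nonneg h1 (sq_nonneg _)) (Q_pos hx)
  have h3 := R_lower hx
  norm_num at h3 ⊢
  linarith

theorem norm_approx2 {z : ℂ} (hz : ‖z‖ = 1) :
    ‖em z 0 + qh * em z 1 + p2 * em z 2 + p3 * em z 3 + p4 * em z 4 + p5 * em z 5‖ ^ 2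
      ≤ 29212669603 / 10 ^ 10 := by
  have hx : |z.re| ≤ 1 := hz ▸ Complex.abs_re_le_norm z
  rw [approx_eq hz, norm_mul, mul_pow, ← Complex.normSq_eq_norm_sq, ← Complex.normSq_eq_norm_sq]
  have h1 : Complex.normSq (1 + z) = 2 + 2 * z.re := by
    have h2 : Complex.normSq z = 1 := by rw [Complex.normSq_eq_norm_sq, hz]; norm_num
    rw [Complex.normSq_apply] at h2
    rw [Complex.normSq_apply, Complex.add_re, Complex.add_im, Complex.one_re, Complex.one_im]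
    linear_combination h2
  have h3 : Complex.normSq ⟨Are z.re, Aim z.re⟩ = Are z.re ^ 2 + Aim z.re ^ 2 := by
    rw [Complex.normSq_apply]; ring
  rw [h1, h3]
  exact cert2 hx

theorem norm_theta_qh2 {z : ℂ} (hz : ‖z‖ = 1) :
    ‖theta qh z‖ ≤ 1709171425078 / 10 ^ 12 + 102 / 10 ^ 13 := by
  have hq := norm_qh
  have hq1 : ‖qh‖ < 1 := lt_of_le_of_lt hq (by norm_num)
  have h1 := theta_split hq1 hz
  have h2 : 2 * (‖qh‖ ^ 21 / (1 - ‖qh‖)) ≤ 1 / 10 ^ 11 := by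
    have h3 : ‖qh‖ ^ 21 ≤ (2803 / 10000) ^ 21 := pow_le_pow_left₀ (norm_nonneg _) hq 21
    have h4 : 0 < 1 - ‖qh‖ := by linarith
    rw [← mul_div_assoc, div_le_iff₀ h4]
    have h5 : (7197 / 10000 : ℝ) ≤ 1 - ‖qh‖ := by linarith
    have h6 : 2 * ‖qh‖ ^ 21 ≤ 2 * (2803 / 10000) ^ 21 := by linarith
    refine h6.trans ?_
    calc (2 : ℝ) * (2803 / 10000) ^ 21 ≤ 1 / 10 ^ 11 * (7197 / 10000) := by norm_num
      _ ≤ _ := mul_le_mul_of_nonneg_left h5 (by norm_num)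
  have h3 := norm_approx2 hz
  set F := em z 0 + qh * em z 1 + p2 * em z 2 + p3 * em z 3 + p4 * em z 4 + p5 * em z 5 with hF
  have h4 : ‖F‖ ≤ 1709171425078 / 10 ^ 12 := by
    have h5 : ‖F‖ ^ 2 ≤ (1709171425078 / 10 ^ 12) ^ 2 := h3.trans (by norm_num)
    exact (pow_le_pow_iff_left₀ (norm_nonneg _) (by norm_num) (by norm_num)).1 h5
  have hb : ∀ (n : ℕ) (p : ℂ) (m : ℕ), ‖qh ^ n - p‖ ≤ 2 * (1 / 10 ^ 14) →
      ‖(qh ^ n - p) * em z m‖ ≤ 4 / 10 ^ 14 := by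
    intro n p m h
    rw [norm_mul]
    calc ‖qh ^ n - p‖ * ‖em z m‖ ≤ (2 * (1 / 10 ^ 14)) * 2 :=
          mul_le_mul h (norm_em_le hz m) (norm_nonneg _) (by norm_num)
      _ = _ := by norm_num
  have g2 := hb 3 p2 2 b3
  have g3 := hb 6 p3 3 b6
  have g4 := hb 10 p4 4 b10
  have g5 := hb 15 p5 5 b15
  have e : theta qh z = (theta qh z - (em z 0 + qh * em z 1 + qh ^ 3 * em z 2 + qh ^ 6 * em z 3
      + qh ^ 10 * em z 4 + qh ^ 15 * em z 5)) + F + (qh ^ 3 - p2) * em z 2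
      + (qh ^ 6 - p3) * em z 3 + (qh ^ 10 - p4) * em z 4 + (qh ^ 15 - p5) * em z 5 := by
    rw [hF]; ring
  rw [e]
  refine (norm_add_le _ _).trans ?_
  refine (add_le_add_left (norm_add_le _ _) _).trans ?_
  refine (add_le_add_left (add_le_add_left (norm_add_le _ _) _) _).trans ?_
  refine (add_le_add_left (add_le_add_left (add_le_add_left (norm_add_le _ _) _) _) _).trans ?_
  refine (add_le_add_left (add_le_add_left (add_le_add_left (add_le_add_left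
    (norm_add_le _ _) _) _) _) _).trans ?_
  have : (4 : ℝ) / 10 ^ 14 * 4 + 1 / 10 ^ 11 ≤ 102 / 10 ^ 13 := by norm_num
  linarith

end QHat

/-- **Sharper upper bound at the rational point**. -/
theorem thetaMax_qhat2 : thetaMax ⟨-0.1912057094, 0.2048974310⟩ ^ 2 ≤ 2.921266961 := by
  have h : thetaMax QHat.qh ≤ 1709171425078 / 10 ^ 12 + 102 / 10 ^ 13 := by
    apply csSup_le
    · exact ⟨_, 1, mem_sphere_zero_iff_norm.2 norm_one, rfl⟩
    · rintro _ ⟨z, hz, rfl⟩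
      exact QHat.norm_theta_qh2 (mem_sphere_zero_iff_norm.1 hz)
  have h2 := pow_le_pow_left₀ (thetaMax_nonneg QHat.qh) h 2
  refine h2.trans ?_
  norm_num

end MaxTerm
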