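import Pool.Agent.MaxTerm.Basic

/-! Reduction of a transcendental entire function to a chain of windows (task T1). -/

open Filter Topology

namespace MaxTerm

/-! ### Taylor coefficients of entire functions -/

theorem hasSum_coeff {f : ℂ → ℂ} (hf : Differentiable ℂ f) (z : ℂ) :
    HasSum (fun n : ℕ => coeff f n * z ^ n) (f z) := by
  have h := Complex.hasSum_taylorSeries_of_entire hf 0 z
  have he : (fun n : ℕ => coeff f n * z ^ n) =
      fun n : ℕ => ((n.factorial : ℂ))⁻¹ • (z - 0) ^ n • iteratedDeriv n f 0 := by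
    funext n
    simp only [coeff, smul_eq_mul, sub_zero]
    ring
  rw [he]
  exact h

theorem summable_coeff {f : ℂ → ℂ} (hf : Differentiable ℂ f) {r : ℝ} (hr : 0 ≤ r) :
    Summable (fun n : ℕ => ‖coeff f n‖ * r ^ n) := by
  have h := (hasSum_coeff hf (r : ℂ)).summable.norm
  refine h.congr fun n => ?_
  rw [norm_mul, norm_pow, Complex.norm_real, Real.norm_of_nonneg hr]

theorem exists_coeff_ne_zero {f : ℂ → ℂ} (hf : TransEntire f) (N : ℕ) :
    ∃ n > N, coeff f n ≠ 0 := by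
  by_contra hcon
  push Not at hcon
  apply hf.2
  refine ⟨∑ n ∈ Finset.range (N + 1), Polynomial.monomial n (coeff f n), fun z => ?_⟩
  have h1 := hasSum_coeff hf.1 z
  have h2 : HasSum (fun n : ℕ => coeff f n * z ^ n)
      (∑ n ∈ Finset.range (N + 1), coeff f n * z ^ n) := by
    apply hasSum_sum_of_ne_finset_zero
    intro n hn
    rw [hcon n (by simpa using hn), zero_mul]
  rw [h1.unique h2, Polynomial.eval_finsetSum]
  simp

/-! ### Newton polygon -/

/-- `n₀` is the central index at radius `r`. -/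
structure Dom (a : ℕ → ℂ) (n₀ : ℕ) (r : ℝ) : Prop where
  pos : 0 < r
  ne : a n₀ ≠ 0
  le : ∀ n, ‖a n‖ * r ^ n ≤ ‖a n₀‖ * r ^ n₀
  lt : ∀ n, n₀ < n → ‖a n‖ * r ^ n < ‖a n₀‖ * r ^ n₀

theorem exists_dom_start {a : ℕ → ℂ} {r : ℝ} (hr : 0 < r)
    (hs : Tendsto (fun n => ‖a n‖ * r ^ n) atTop (𝓝 0)) (hne : ∃ n, a n ≠ 0) :
    ∃ n₀, Dom a n₀ r := by
  classical
  obtain ⟨m, hm⟩ := hne
  have hpos : 0 < ‖a m‖ * r ^ m := mul_pos (norm_pos_iff.mpr hm) (pow_pos hr m)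
  -- the finitely many indices whose term is at least the `m`-th one
  obtain ⟨N, hN⟩ := eventually_atTop.mp (hs.eventually (gt_mem_nhds hpos))
  have hmN : m < N := by
    by_contra h
    exact absurd (hN m (not_lt.mp h)) (lt_irrefl _)
  obtain ⟨p, hp, hpmax⟩ := Finset.exists_max_image (Finset.range N)
    (fun n => ‖a n‖ * r ^ n) ⟨m, Finset.mem_range.mpr hmN⟩
  have hpall : ∀ n, ‖a n‖ * r ^ n ≤ ‖a p‖ * r ^ p := by
    intro n
    by_cases hn : n < N
    · exact hpmax n (Finset.mem_range.mpr hn)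
    · exact (hN n (not_lt.mp hn)).le.trans (hpmax m (Finset.mem_range.mpr hmN))
  -- the largest index with the maximal value
  obtain ⟨q, hq, hqmax⟩ := Finset.exists_max_image
    ((Finset.range N).filter fun n => ‖a n‖ * r ^ n = ‖a p‖ * r ^ p) id
    ⟨p, Finset.mem_filter.mpr ⟨hp, rfl⟩⟩
  rw [Finset.mem_filter] at hq
  have hqpos : 0 < ‖a q‖ * r ^ q := by
    rw [hq.2]; exact hpos.trans_le (hpall m)
  refine ⟨q, hr, ?_, ?_, ?_⟩
  · intro h0
    rw [h0] at hqpos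
    simp at hqpos
  · intro n; rw [hq.2]; exact hpall n
  · intro n hn
    rw [hq.2]
    refine lt_of_le_of_ne (hpall n) fun heq => ?_
    by_cases hnN : n < N
    · have := hqmax n (Finset.mem_filter.mpr ⟨Finset.mem_range.mpr hnN, heq⟩)
      simp only [id] at this
      omega
    · have h1 := hN n (not_lt.mp hnN)
      have h2 := hpall m
      rw [heq] at h1
      exact absurd h1 (not_lt.mpr h2)

theorem exists_dom_next {a : ℕ → ℂ} {n₀ : ℕ} {r₀ : ℝ} (h : Dom a n₀ r₀)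
    (hs : ∀ r : ℝ, 0 < r → Tendsto (fun n => ‖a n‖ * r ^ n) atTop (𝓝 0))
    (hne : ∃ n > n₀, a n ≠ 0) :
    ∃ n₁ r₁, n₀ < n₁ ∧ r₀ < r₁ ∧ Dom a n₁ r₁ ∧ ‖a n₁‖ * r₁ ^ n₁ = ‖a n₀‖ * r₁ ^ n₀ := by
  classical
  obtain ⟨m, hm, hm0⟩ := hne
  have ha0 : 0 < ‖a n₀‖ := norm_pos_iff.mpr h.ne
  -- the critical radius of the pair `(n₀, n)`
  set φ : ℕ → ℝ := fun n => (‖a n₀‖ / ‖a n‖) ^ ((1 : ℝ) / ((n - n₀ : ℕ) : ℝ)) with hφ
  have hφpos : ∀ n, a n ≠ 0 → 0 < φ n := fun n hn =>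
    Real.rpow_pos_of_pos (div_pos ha0 (norm_pos_iff.mpr hn)) _
  have hφpow : ∀ n, n₀ < n → a n ≠ 0 → φ n ^ (n - n₀) = ‖a n₀‖ / ‖a n‖ := by
    intro n hn hn0
    have hne : ((n - n₀ : ℕ) : ℝ) ≠ 0 := by
      have : 0 < n - n₀ := by omega
      positivity
    rw [hφ]
    simp only
    rw [← Real.rpow_natCast, ← Real.rpow_mul (div_pos ha0 (norm_pos_iff.mpr hn0)).le,
      one_div, inv_mul_cancel₀ hne, Real.rpow_one]
  -- comparison principle
  have hsplit : ∀ (n : ℕ) (r : ℝ), n₀ < n → r ^ n = r ^ n₀ * r ^ (n - n₀) := by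
    intro n r hn
    rw [← pow_add]; congr 1; omega
  have hcmp : ∀ n (r : ℝ), n₀ < n → a n ≠ 0 → 0 < r → r ≤ φ n →
      ‖a n‖ * r ^ n ≤ ‖a n₀‖ * r ^ n₀ := by
    intro n r hn hn0 hr hle
    have h1 : r ^ (n - n₀) ≤ ‖a n₀‖ / ‖a n‖ := by
      rw [← hφpow n hn hn0]; exact pow_le_pow_left₀ hr.le hle _
    rw [le_div_iff₀ (norm_pos_iff.mpr hn0)] at h1
    rw [hsplit n r hn]
    calc ‖a n‖ * (r ^ n₀ * r ^ (n - n₀)) = (r ^ (n - n₀) * ‖a n‖) * r ^ n₀ := by ring
      _ ≤ ‖a n₀‖ * r ^ n₀ := by gcongr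
  have hcmp' : ∀ n (r : ℝ), n₀ < n → a n ≠ 0 → 0 < r → φ n ≤ r →
      ‖a n₀‖ * r ^ n₀ ≤ ‖a n‖ * r ^ n := by
    intro n r hn hn0 hr hle
    have h1 : ‖a n₀‖ / ‖a n‖ ≤ r ^ (n - n₀) := by
      rw [← hφpow n hn hn0]; exact pow_le_pow_left₀ (hφpos n hn0).le hle _
    rw [div_le_iff₀ (norm_pos_iff.mpr hn0)] at h1
    rw [hsplit n r hn]
    calc ‖a n₀‖ * r ^ n₀ ≤ (r ^ (n - n₀) * ‖a n‖) * r ^ n₀ := by gcongr
      _ = ‖a n‖ * (r ^ n₀ * r ^ (n - n₀)) := by ring
  have hrm : 0 < φ m := hφpos m hm0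
  -- candidates: indices `n > n₀` which are at least as large as `n₀` at the radius `φ m`
  have hpos0 : 0 < ‖a n₀‖ * φ m ^ n₀ := mul_pos ha0 (pow_pos hrm _)
  obtain ⟨N, hN⟩ := eventually_atTop.mp ((hs _ hrm).eventually (gt_mem_nhds hpos0))
  have hmN : m < N := by
    by_contra hc
    exact absurd (hN m (not_lt.mp hc)) (not_lt.mpr (hcmp' m _ hm hm0 hrm le_rfl))
  obtain ⟨p, hp, hpmin⟩ := Finset.exists_min_image
    ((Finset.range N).filter fun n => n₀ < n ∧ a n ≠ 0) φ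
    ⟨m, Finset.mem_filter.mpr ⟨Finset.mem_range.mpr hmN, hm, hm0⟩⟩
  rw [Finset.mem_filter] at hp
  obtain ⟨hpN, hpn, hp0⟩ := hp
  have hr1 : 0 < φ p := hφpos p hp0
  have hpm : φ p ≤ φ m := hpmin m (Finset.mem_filter.mpr ⟨Finset.mem_range.mpr hmN, hm, hm0⟩)
  have hmin : ∀ n, n₀ < n → a n ≠ 0 → φ p ≤ φ n := by
    intro n hn hn0
    by_cases hnN : n < N
    · exact hpmin n (Finset.mem_filter.mpr ⟨Finset.mem_range.mpr hnN, hn, hn0⟩)
    · by_contra hc
      push Not at hc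
      have h1 := hN n (not_lt.mp hnN)
      have h2 := hcmp' n (φ m) hn hn0 hrm (hc.le.trans hpm)
      exact absurd h1 (not_lt.mpr h2)
  have hrr : r₀ < φ p := by
    by_contra hc
    push Not at hc
    have h1 := hcmp' p r₀ hpn hp0 h.pos hc
    exact absurd (h.lt p hpn) (not_lt.mpr h1)
  -- at the radius `φ p`, `n₀` attains the maximum
  have hmax : ∀ n, ‖a n‖ * φ p ^ n ≤ ‖a n₀‖ * φ p ^ n₀ := by
    intro n
    by_cases hn : n₀ < n
    · by_cases hn0 : a n = 0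
      · rw [hn0]; simp only [norm_zero, zero_mul]; positivity
      · exact hcmp n _ hn hn0 hr1 (hmin n hn hn0)
    · have hn' : n ≤ n₀ := not_lt.mp hn
      have h1 := h.le n
      have h2 : r₀ ^ n₀ = r₀ ^ n * r₀ ^ (n₀ - n) := by rw [← pow_add]; congr 1; omega
      have h3 : φ p ^ n₀ = φ p ^ n * φ p ^ (n₀ - n) := by rw [← pow_add]; congr 1; omega
      have h4 : ‖a n‖ ≤ ‖a n₀‖ * r₀ ^ (n₀ - n) := by
        have hrn : 0 < r₀ ^ n := pow_pos h.pos _
        rw [h2] at h1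
        have : ‖a n‖ * r₀ ^ n ≤ (‖a n₀‖ * r₀ ^ (n₀ - n)) * r₀ ^ n := by
          calc _ ≤ _ := h1
            _ = _ := by ring
        exact le_of_mul_le_mul_right this hrn
      have h5 : r₀ ^ (n₀ - n) ≤ φ p ^ (n₀ - n) := pow_le_pow_left₀ h.pos.le hrr.le _
      rw [h3]
      have h6 : 0 ≤ φ p ^ n := pow_nonneg hr1.le _
      calc ‖a n‖ * φ p ^ n ≤ (‖a n₀‖ * r₀ ^ (n₀ - n)) * φ p ^ n := by gcongr
        _ ≤ (‖a n₀‖ * φ p ^ (n₀ - n)) * φ p ^ n := by gcongr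
        _ = ‖a n₀‖ * (φ p ^ n * φ p ^ (n₀ - n)) := by ring
  -- `p` attains it as well
  have hpeq : ‖a p‖ * φ p ^ p = ‖a n₀‖ * φ p ^ n₀ :=
    le_antisymm (hmax p) (hcmp' p _ hpn hp0 hr1 le_rfl)
  obtain ⟨q, hq⟩ := exists_dom_start hr1 (hs _ hr1) ⟨n₀, h.ne⟩
  have hqval : ‖a q‖ * φ p ^ q = ‖a n₀‖ * φ p ^ n₀ :=
    le_antisymm (hmax q) (hq.le n₀)
  have hqp : p ≤ q := by
    by_contra hc
    push Not at hc
    have := hq.lt p hc
    rw [hqval, hpeq] at this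
    exact lt_irrefl _ this
  exact ⟨q, φ p, by omega, hrr, hq, hqval⟩

theorem maxTerm_eq {f : ℂ → ℂ} {n₀ : ℕ} {r : ℝ}
    (h : ∀ n, ‖coeff f n‖ * r ^ n ≤ ‖coeff f n₀‖ * r ^ n₀) :
    maxTerm f r = ‖coeff f n₀‖ * r ^ n₀ :=
  le_antisymm (ciSup_le h) (le_ciSup (f := fun n : ℕ => ‖coeff f n‖ * r ^ n)
    ⟨_, by rintro _ ⟨n, rfl⟩; exact h n⟩ n₀)

theorem norm_le_maxMod {f : ℂ → ℂ} (hf : Differentiable ℂ f) {r : ℝ} {z : ℂ} (hz : ‖z‖ = r) :
    ‖f z‖ ≤ maxMod f r := by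
  apply le_csSup
  · exact ((isCompact_sphere (0 : ℂ) r).image (continuous_norm.comp hf.continuous)).bddAbove
  · exact ⟨z, by simpa using hz, rfl⟩

theorem maxMod_nonneg (f : ℂ → ℂ) (r : ℝ) : 0 ≤ maxMod f r := by
  apply Real.sSup_nonneg
  rintro _ ⟨z, _, rfl⟩
  exact norm_nonneg _

/-- the window of `f` at the radius `‖w‖`, seen from the vertex `n₀` -/
noncomputable def winOf (a : ℕ → ℂ) (n₀ : ℕ) (w : ℂ) (n : ℤ) : ℂ :=
  if 0 ≤ (n₀ : ℤ) + n then a ((n₀ : ℤ) + n).toNat * w ^ n / a n₀ else 0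

theorem winOf_sub {a : ℕ → ℂ} {n₀ : ℕ} {w : ℂ} (hw : w ≠ 0) (m : ℕ) :
    winOf a n₀ w ((m : ℤ) - n₀) = a m * w ^ m / (a n₀ * w ^ n₀) := by
  unfold winOf
  have h1 : (n₀ : ℤ) + ((m : ℤ) - n₀) = m := by ring
  rw [h1, if_pos (by positivity), Int.toNat_natCast, zpow_sub₀ hw, zpow_natCast, zpow_natCast]
  rw [mul_div_assoc', div_div, mul_comm (w ^ n₀)]

theorem winOf_of_not_mem {a : ℕ → ℂ} {n₀ : ℕ} {w : ℂ} {n : ℤ}
    (hn : n ∉ Set.range (fun m : ℕ => (m : ℤ) - n₀)) : winOf a n₀ w n = 0 := by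
  unfold winOf
  rw [if_neg]
  intro h
  exact hn ⟨((n₀ : ℤ) + n).toNat, by simp only; rw [Int.toNat_of_nonneg h]; ring⟩

theorem winOf_inj (n₀ : ℕ) : Function.Injective (fun m : ℕ => (m : ℤ) - n₀) := by
  intro x y h
  simpa using h

theorem isWindow_winOf {f : ℂ → ℂ} (hf : Differentiable ℂ f) {K : ℝ} {n₀ n₁ : ℕ} {r : ℝ} {w : ℂ}
    (hw : ‖w‖ = r) (h01 : n₀ < n₁) (hr : 0 < r) (h0 : coeff f n₀ ≠ 0) (h1 : coeff f n₁ ≠ 0)
    (hle : ∀ n, ‖coeff f n‖ * r ^ n ≤ ‖coeff f n₀‖ * r ^ n₀)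
    (hwk : w ^ (n₁ - n₀) = coeff f n₀ / coeff f n₁)
    (hK : maxMod f r ≤ K * maxTerm f r) :
    IsWindow K (n₁ - n₀) (winOf (coeff f) n₀ w) := by
  have hw0 : w ≠ 0 := by
    intro h; rw [h, norm_zero] at hw; exact hr.ne hw
  have hden : 0 < ‖coeff f n₀‖ * r ^ n₀ := mul_pos (norm_pos_iff.mpr h0) (pow_pos hr _)
  have hsum : ∀ z : ℂ, ‖z‖ = 1 → HasSum (fun n : ℤ => winOf (coeff f) n₀ w n * z ^ n)
      (f (w * z) / (coeff f n₀ * (w * z) ^ n₀)) := by
    intro z hz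
    have hz0 : z ≠ 0 := by intro h; rw [h] at hz; simp at hz
    rw [← (winOf_inj n₀).hasSum_iff]
    · have h2 := (hasSum_coeff hf (w * z)).div_const (coeff f n₀ * (w * z) ^ n₀)
      have he : ((fun n : ℤ => winOf (coeff f) n₀ w n * z ^ n) ∘ fun m : ℕ => (m : ℤ) - n₀) =
          fun m : ℕ => coeff f m * (w * z) ^ m / (coeff f n₀ * (w * z) ^ n₀) := by
        funext m
        simp only [Function.comp]
        rw [winOf_sub hw0, zpow_sub₀ hz0, zpow_natCast, zpow_natCast, mul_pow, mul_pow]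
        have e1 := pow_ne_zero n₀ hw0
        have e2 := pow_ne_zero n₀ hz0
        field_simp
      rw [he]
      exact h2
    · intro n hn
      rw [winOf_of_not_mem hn, zero_mul]
  have hone : winOf (coeff f) n₀ w 0 = 1 := by
    have := winOf_sub (a := coeff f) (n₀ := n₀) hw0 n₀
    rw [sub_self] at this
    rw [this, div_self (mul_ne_zero h0 (pow_ne_zero _ hw0))]
  refine ⟨hone, ?_, ?_, ?_, ?_⟩
  · have := winOf_sub (a := coeff f) (n₀ := n₀) hw0 n₁
    rw [Nat.cast_sub h01.le, this]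
    have h2 : w ^ n₁ = w ^ n₀ * w ^ (n₁ - n₀) := by rw [← pow_add]; congr 1; omega
    rw [h2, hwk]
    have := pow_ne_zero n₀ hw0
    field_simp
  · intro n
    by_cases hn : n ∈ Set.range (fun m : ℕ => (m : ℤ) - n₀)
    · obtain ⟨m, rfl⟩ := hn
      simp only
      rw [winOf_sub hw0, norm_div, norm_mul, norm_mul, norm_pow, norm_pow, hw]
      rw [div_le_one hden]
      exact hle m
    · rw [winOf_of_not_mem hn, norm_zero]; exact zero_le_one
  · rw [← (winOf_inj n₀).summable_iff]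
    · have h2 := (summable_coeff hf hr.le).div_const (‖coeff f n₀‖ * r ^ n₀)
      refine h2.congr fun m => ?_
      simp only [Function.comp]
      rw [winOf_sub hw0, norm_div, norm_mul, norm_mul, norm_pow, norm_pow, hw]
    · intro n hn
      rw [winOf_of_not_mem hn, norm_zero]
  · intro z hz
    rw [(hsum z hz).tsum_eq, norm_div, norm_mul, norm_pow, norm_mul, hw, hz, mul_one,
      div_le_iff₀ hden, ← maxTerm_eq hle]
    exact (norm_le_maxMod hf (by rw [norm_mul, hw, hz, mul_one])).trans hK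

theorem winOf_step {a : ℕ → ℂ} {n₀ n₁ : ℕ} {w w' : ℂ} (h01 : n₀ < n₁) (hw : w ≠ 0)
    (h0 : a n₀ ≠ 0) (h1 : a n₁ ≠ 0) (hwk : w ^ (n₁ - n₀) = a n₀ / a n₁) (n : ℤ) :
    winOf a n₁ w' n = winOf a n₀ w (n + ((n₁ - n₀ : ℕ) : ℤ)) * (w' / w) ^ n := by
  unfold winOf
  have hidx : (n₀ : ℤ) + (n + ((n₁ - n₀ : ℕ) : ℤ)) = n₁ + n := by
    rw [Nat.cast_sub h01.le]; ring
  rw [hidx]
  split_ifs with hc
  · rw [zpow_add₀ hw, zpow_natCast, hwk, div_zpow]
    have h3 : w ^ n ≠ 0 := zpow_ne_zero _ hw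
    generalize w ^ n = x at *
    generalize w' ^ n = y at *
    field_simp
  · simp

/-- The vertices of the Newton polygon. -/
theorem exists_vertices {a : ℕ → ℂ} {N₀ : ℕ} {ρ : ℝ} (hN₀ : Dom a N₀ ρ)
    (hten : ∀ r : ℝ, 0 < r → Tendsto (fun n => ‖a n‖ * r ^ n) atTop (𝓝 0))
    (hne : ∀ N, ∃ n > N, a n ≠ 0) :
    ∃ (v : ℕ → ℕ) (R : ℕ → ℝ), (∀ j, v j < v (j + 1)) ∧ (∀ j, R j < R (j + 1)) ∧
      (∀ j, ρ ≤ R j) ∧ (∀ j, a (v j) ≠ 0) ∧
      (∀ j n, ‖a n‖ * R j ^ n ≤ ‖a (v j)‖ * R j ^ v j) ∧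
      (∀ j, ‖a (v (j + 1))‖ * R j ^ v (j + 1) = ‖a (v j)‖ * R j ^ v j) := by
  let P := {p : ℕ × ℝ // ρ ≤ p.2 ∧ Dom a p.1 p.2}
  have hnext : ∀ p : P, ∃ q : P, p.1.1 < q.1.1 ∧ p.1.2 < q.1.2 ∧
      ‖a q.1.1‖ * q.1.2 ^ q.1.1 = ‖a p.1.1‖ * q.1.2 ^ p.1.1 := by
    intro p
    obtain ⟨n₁, r₁, h1, h2, h3, h4⟩ := exists_dom_next p.2.2 hten (hne p.1.1)
    exact ⟨⟨(n₁, r₁), p.2.1.trans h2.le, h3⟩, h1, h2, h4⟩
  choose nx hnx1 hnx2 hnx3 using hnext
  obtain ⟨s, hs⟩ : ∃ s : ℕ → P, ∀ j, s (j + 1) = nx (s j) :=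
    ⟨fun j => Nat.rec ⟨(N₀, ρ), le_rfl, hN₀⟩ (fun _ p => nx p) j, fun j => rfl⟩
  have hEq : ∀ j, ‖a (s (j + 1)).1.1‖ * (s (j + 1)).1.2 ^ (s (j + 1)).1.1
      = ‖a (s j).1.1‖ * (s (j + 1)).1.2 ^ (s j).1.1 := by
    intro j
    rw [hs]; exact hnx3 _
  refine ⟨fun j => (s j).1.1, fun j => (s (j + 1)).1.2, fun j => ?_, fun j => ?_,
    fun j => (s (j + 1)).2.1, fun j => (s j).2.2.ne, fun j n => ?_, hEq⟩
  · simp only [hs]; exact hnx1 _
  · simp only [hs (j + 1)]; exact hnx2 _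
  · simp only
    rw [← hEq]
    exact (s (j + 1)).2.2.le n

/-- If `β_f > 1/K` then the windows of `f` at its (large) transition radii form a `Chain K`.
(Newton polygon of the coefficients: vertices = values of the central index, i.e. the largest index
attaining the maximum term; at the transition radius `R_j` both vertices attain the maximum term;
`c j n = a_{n_j + n} z_j^n / a_{n_j}` (zero for negative index), `z_j^{k_j} = a_{n_j}/a_{n_{j+1}}`,
`|z_j| = R_j`, `τ j = z_{j+1}/z_j`.) -/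
theorem exists_chain {f : ℂ → ℂ} (hf : TransEntire f) {K : ℝ} (hK : 0 < K)
    (h : 1 / K < betaOf f) : Nonempty (Chain K) := by
  classical
  have hd := hf.1
  -- the inequality between the maximum modulus and the maximum term for large radii
  have hev : ∀ᶠ r : ℝ in atTop, 1 / K < maxTerm f r / maxMod f r := by
    refine eventually_lt_of_lt_liminf h ?_
    refine ⟨0, ?_⟩
    simp only [eventually_map]
    filter_upwards [eventually_ge_atTop (0 : ℝ)] with r hr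
    refine div_nonneg (Real.iSup_nonneg fun n => by positivity) (maxMod_nonneg _ _)
  obtain ⟨ρ', hρ'⟩ := eventually_atTop.mp hev
  set ρ : ℝ := max ρ' 1 with hρ
  have hρpos : 0 < ρ := lt_of_lt_of_le zero_lt_one (le_max_right _ _)
  have hbd : ∀ r, ρ ≤ r → maxMod f r ≤ K * maxTerm f r := by
    intro r hr
    have h1 := hρ' r ((le_max_left _ _).trans hr)
    have hMpos : 0 < maxMod f r := by
      refine lt_of_le_of_ne (maxMod_nonneg _ _) fun h0 => ?_
      rw [← h0, div_zero] at h1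
      have : 0 < 1 / K := by positivity
      linarith
    rw [div_lt_div_iff₀ hK hMpos, one_mul] at h1
    linarith
  have hten : ∀ r : ℝ, 0 < r → Tendsto (fun n => ‖coeff f n‖ * r ^ n) atTop (𝓝 0) :=
    fun r hr => (summable_coeff hd hr.le).tendsto_atTop_zero
  obtain ⟨N₀, hN₀⟩ := exists_dom_start hρpos (hten ρ hρpos)
    (let ⟨n, _, hn⟩ := exists_coeff_ne_zero hf 0; ⟨n, hn⟩)
  obtain ⟨v, R, hv, hR, hρR, hne, hle, hEq⟩ :=
    exists_vertices hN₀ hten (exists_coeff_ne_zero hf)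
  have hRpos : ∀ j, 0 < R j := fun j => hρpos.trans_le (hρR j)
  have hroot : ∀ j, ∃ z : ℂ, z ^ (v (j + 1) - v j) = coeff f (v j) / coeff f (v (j + 1)) := by
    intro j
    have hk : 0 < v (j + 1) - v j := by have := hv j; omega
    exact IsAlgClosed.exists_pow_nat_eq _ hk
  choose z hz using hroot
  have hznorm : ∀ j, ‖z j‖ = R j := by
    intro j
    have hk : v (j + 1) - v j ≠ 0 := by have := hv j; omega
    have h1 : ‖z j‖ ^ (v (j + 1) - v j) = R j ^ (v (j + 1) - v j) := by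
      rw [← norm_pow, hz, norm_div, div_eq_iff (norm_ne_zero_iff.mpr (hne _))]
      have h2 := hEq j
      have h3 : R j ^ v (j + 1) = R j ^ (v (j + 1) - v j) * R j ^ v j := by
        rw [← pow_add]; congr 1; have := hv j; omega
      rw [h3] at h2
      have h4 : 0 < R j ^ v j := pow_pos (hRpos j) _
      have h5 : (R j ^ (v (j + 1) - v j) * ‖coeff f (v (j + 1))‖) * R j ^ v j
          = ‖coeff f (v j)‖ * R j ^ v j := by
        rw [← h2]; ring
      exact (mul_right_cancel₀ h4.ne' h5).symm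
    exact (pow_left_inj₀ (norm_nonneg _) (hRpos j).le hk).mp h1
  have hz0 : ∀ j, z j ≠ 0 := fun j => by
    rw [← norm_pos_iff, hznorm]; exact hRpos j
  refine ⟨{ k := fun j => v (j + 1) - v j
            c := fun j => winOf (coeff f) (v j) (z j)
            τ := fun j => z (j + 1) / z j
            k_pos := fun j => by have := hv j; omega
            one_lt := fun j => ?_
            win := fun j => isWindow_winOf hd (hznorm j) (hv j) (hRpos j) (hne j) (hne (j + 1))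
              (hle j) (hz j) (hbd _ (hρR j))
            step := fun j n => ?_ }⟩
  · rw [norm_div, hznorm, hznorm, one_lt_div (hRpos j)]
    exact hR j
  · exact winOf_step (hv j) (hz0 j) (hne j) (hne (j + 1)) (hz j) n

/-- dropping the first `J` windows -/
theorem Chain.exists_drop {K : ℝ} (C : Chain K) (J : ℕ) :
    ∃ C' : Chain K, ∀ j, C'.k j = C.k (j + J) := by
  refine ⟨{ k := fun j => C.k (j + J)
            c := fun j => C.c (j + J)
            τ := fun j => C.τ (j + J)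
            k_pos := fun j => C.k_pos _
            one_lt := fun j => C.one_lt _
            win := fun j => C.win _
            step := fun j n => ?_ }, fun j => rfl⟩
  have h := C.step (j + J) n
  rw [show j + J + 1 = j + 1 + J by omega] at h
  exact h

/-- average over the `k`-th roots of unity -/
theorem sum_root_zpow {k : ℕ} {ζ : ℂ} (hζ : IsPrimitiveRoot ζ k) (m : ℤ) :
    ∑ i ∈ Finset.range k, (ζ ^ i) ^ m = if (k : ℤ) ∣ m then (k : ℂ) else 0 := by
  have h1 : ∀ i : ℕ, (ζ ^ i) ^ m = (ζ ^ m) ^ i := by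
    intro i
    rw [← zpow_natCast, ← zpow_natCast, ← zpow_mul, ← zpow_mul, mul_comm]
  simp only [h1]
  split_ifs with hd
  · rw [(hζ.zpow_eq_one_iff_dvd m).mpr hd]
    simp
  · have hne : ζ ^ m ≠ 1 := fun h => hd ((hζ.zpow_eq_one_iff_dvd m).mp h)
    rw [geom_sum_eq hne]
    have : (ζ ^ m) ^ k = 1 := by
      rw [← zpow_natCast, ← zpow_mul, mul_comm, zpow_mul, zpow_natCast, hζ.pow_eq_one, one_zpow]
    rw [this, sub_self, zero_div]

theorem isWindow_project {K : ℝ} {k : ℕ} (hk : 0 < k) {c : ℤ → ℂ} (h : IsWindow K k c) :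
    IsWindow K 1 (fun n => c (k * n)) := by
  have hk0 : (k : ℤ) ≠ 0 := by exact_mod_cast hk.ne'
  have hkC : (k : ℂ) ≠ 0 := by exact_mod_cast hk.ne'
  have hinj : Function.Injective (fun n : ℤ => (k : ℤ) * n) := mul_right_injective₀ hk0
  refine ⟨by simpa using h.c_zero, by simpa using h.c_edge, fun _ => h.norm_le _,
    h.summable.comp_injective hinj, fun z hz => ?_⟩
  obtain ⟨w, hw⟩ := IsAlgClosed.exists_pow_nat_eq z hk
  have hwn : ‖w‖ = 1 := by
    have : ‖w‖ ^ k = 1 := by rw [← norm_pow, hw, hz]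
    exact (pow_eq_one_iff_of_nonneg (norm_nonneg _) hk.ne').mp this
  have hw0 : w ≠ 0 := by rw [← norm_pos_iff, hwn]; exact one_pos
  have hζ := Complex.isPrimitiveRoot_exp k hk.ne'
  set ζ := Complex.exp (2 * Real.pi * Complex.I / k) with hζdef
  have hζn : ‖ζ‖ = 1 := hζ.norm'_eq_one hk.ne'
  have hζ0 : ζ ≠ 0 := by rw [← norm_pos_iff, hζn]; exact one_pos
  have hsm : ∀ u : ℂ, ‖u‖ = 1 → Summable (fun n : ℤ => c n * u ^ n) := by
    intro u hu
    apply Summable.of_norm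
    refine h.summable.congr fun n => ?_
    rw [norm_mul, norm_zpow, hu, one_zpow, mul_one]
  have hun : ∀ i : ℕ, ‖ζ ^ i * w‖ = 1 := fun i => by
    rw [norm_mul, norm_pow, hζn, hwn, one_pow, mul_one]
  -- the averaged sum
  have h1 : ∑ i ∈ Finset.range k, ∑' n : ℤ, c n * (ζ ^ i * w) ^ n
      = k * ∑' n : ℤ, c (k * n) * z ^ n := by
    rw [← Summable.tsum_finsetSum (fun i _ => hsm _ (hun i))]
    have h2 : ∀ n : ℤ, ∑ i ∈ Finset.range k, c n * (ζ ^ i * w) ^ n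
        = if (k : ℤ) ∣ n then (k : ℂ) * (c n * w ^ n) else 0 := by
      intro n
      have : ∀ i ∈ Finset.range k, c n * (ζ ^ i * w) ^ n = (c n * w ^ n) * (ζ ^ i) ^ n := by
        intro i _
        rw [mul_zpow]; ring
      rw [Finset.sum_congr rfl this, ← Finset.mul_sum, sum_root_zpow hζ]
      split_ifs
      · ring
      · ring
    simp only [h2]
    rw [← hinj.tsum_eq (f := fun n : ℤ => if (k : ℤ) ∣ n then (k : ℂ) * (c n * w ^ n) else 0)]
    · rw [← tsum_mul_left]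
      refine tsum_congr fun n => ?_
      rw [if_pos (dvd_mul_right _ _), zpow_mul, zpow_natCast, hw]
    · intro n hn
      simp only [Function.mem_support, ne_eq, ite_eq_right_iff, not_forall] at hn
      obtain ⟨⟨m, hm⟩, _⟩ := hn
      exact ⟨m, hm.symm⟩
  have h3 : ‖(k : ℂ) * ∑' n : ℤ, c (k * n) * z ^ n‖ ≤ k * K := by
    rw [← h1]
    refine (norm_sum_le _ _).trans ?_
    refine (Finset.sum_le_sum fun i _ => h.bound _ (hun i)).trans ?_
    simp
  rw [norm_mul, Complex.norm_natCast] at h3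
  exact le_of_mul_le_mul_left h3 (by exact_mod_cast hk)

/-- projection on the multiples of the common gap (average over the `k`-th roots of unity):
`c' j n = c j (k n)`, `τ' = τ ^ k`. -/
theorem Chain.exists_project {K : ℝ} (C : Chain K) (k : ℕ) (h : ∀ j, C.k j = k) :
    ∃ C' : Chain K, ∀ j, C'.k j = 1 := by
  have hk : 0 < k := h 0 ▸ C.k_pos 0
  refine ⟨{ k := fun _ => 1
            c := fun j n => C.c j (k * n)
            τ := fun j => C.τ j ^ k
            k_pos := fun _ => one_pos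
            one_lt := fun j => ?_
            win := fun j => isWindow_project hk (by have := C.win j; rwa [h j] at this)
            step := fun j n => ?_ }, fun j => rfl⟩
  · rw [norm_pow]
    exact one_lt_pow₀ (C.one_lt j) hk.ne'
  · have h1 := C.step j (k * n)
    rw [h j] at h1
    rw [h1, zpow_mul, zpow_natCast]
    congr 2
    push_cast
    ring

end MaxTerm
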